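import Pool.Agent.N86.S46.SixMain

/-!
# Steiner systems `S(5, k, q + 1)` on the projective line which are invariant under `PSL(2, q)`
-/

set_option autoImplicit false

namespace Pool.Agent.N86.S46

open Finset Matrix Pool.Agent.N86.S6 Pool.Agent.N86.S4

section closure
variable {F : Type*} [Field F]

/-- reflections about all the points make a group -/
lemma closure_sq (D : Finset F) (h0 : (0 : F) ∉ D) (h1 : (1 : F) ∈ D)
    (h : ∀ x ∈ D, ∀ z ∈ D, x * x / z ∈ D) : ∀ x ∈ D, ∀ y ∈ D, x * y ∈ D := by
  classical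
  set M := D.filter (fun m => ∀ z ∈ D, m * z ∈ D) with hM
  have hmM : ∀ m, m ∈ M ↔ m ∈ D ∧ ∀ z ∈ D, m * z ∈ D := fun m => by rw [hM, Finset.mem_filter]
  have hMD : ∀ m ∈ M, m ∈ D := fun m hm => ((hmM m).1 hm).1
  have hmul : ∀ m ∈ M, ∀ m' ∈ M, m * m' ∈ M := by
    intro m hm m' hm'
    rw [hmM] at hm hm' ⊢
    refine ⟨hm.2 m' hm'.1, fun z hz => ?_⟩
    rw [mul_assoc]
    exact hm.2 _ (hm'.2 z hz)
  have h1M : (1 : F) ∈ M := by
    rw [hmM]
    exact ⟨h1, fun z hz => by rwa [one_mul]⟩
  have hM0 : (0 : F) ∉ M := fun e => h0 (hMD 0 e)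
  have hinv : ∀ m ∈ M, m⁻¹ ∈ M := by
    intro m hm
    refine mem_of_pow M hM0 ⟨1, h1M⟩ hmul ?_
    rw [inv_pow, pow_card_eq_one M hM0 hmul m hm, inv_one]
  have hsq : ∀ x ∈ D, x * x ∈ M := by
    intro x hx
    have hx0 : x ≠ 0 := fun e => h0 (e ▸ hx)
    rw [hmM]
    constructor
    · have := h x hx 1 h1
      rwa [div_one] at this
    · intro z hz
      have hz0 : z ≠ 0 := fun e => h0 (e ▸ hz)
      have h2 := h x hx _ (h 1 h1 z hz)
      have h3 : x * x / (1 * 1 / z) = x * x * z := by field_simp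
      rwa [h3] at h2
  intro x hx y hy
  by_contra hcon
  have hx0 : x ≠ 0 := fun e => h0 (e ▸ hx)
  have hy0 : y ≠ 0 := fun e => h0 (e ▸ hy)
  have hxM : x ∉ M := fun e => hcon (((hmM x).1 e).2 y hy)
  have hyM : y ∉ M := fun e => hcon (by rw [mul_comm]; exact ((hmM y).1 e).2 x hx)
  have hyx : ∀ m ∈ M, y ≠ x * m := by
    rintro m hm rfl
    refine hcon ?_
    rw [← mul_assoc]
    exact ((hmM _).1 (hsq x hx)).2 m (hMD m hm)
  have hpos : 0 < M.card := Finset.card_pos.2 ⟨1, h1M⟩
  have hr : ∀ z ∈ M ∪ (M.image (fun m => x * m) ∪ M.image (fun m => y * m)),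
      z ^ (2 * M.card) = 1 := by
    have key : ∀ u : F, u * u ∈ M → ∀ m ∈ M, (u * m) ^ (2 * M.card) = 1 := by
      intro u hu m hm
      have e1 : (u * m) ^ (2 * M.card) = (u * u) ^ M.card * (m ^ M.card) ^ 2 := by ring
      rw [e1, pow_card_eq_one M hM0 hmul _ hu, pow_card_eq_one M hM0 hmul _ hm, one_pow, one_mul]
    intro z hz
    rw [Finset.mem_union, Finset.mem_union, Finset.mem_image, Finset.mem_image] at hz
    rcases hz with hz | ⟨m, hm, rfl⟩ | ⟨m, hm, rfl⟩
    · have := key 1 (by rw [one_mul]; exact h1M) z hz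
      rwa [one_mul] at this
    · exact key x (hsq x hx) m hm
    · exact key y (hsq y hy) m hm
  have hle : (M ∪ (M.image (fun m => x * m) ∪ M.image (fun m => y * m))).card ≤ 2 * M.card := by
    have h4 : M ∪ (M.image (fun m => x * m) ∪ M.image (fun m => y * m)) ⊆
        (Polynomial.nthRoots (2 * M.card) (1 : F)).toFinset := by
      intro z hz
      rw [Multiset.mem_toFinset, Polynomial.mem_nthRoots (by omega)]
      exact hr z hz
    refine (Finset.card_le_card h4).trans ?_
    exact (Multiset.toFinset_card_le _).trans (Polynomial.card_nthRoots _ _)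
  rw [Finset.card_union_of_disjoint, Finset.card_union_of_disjoint,
    Finset.card_image_of_injective _ (mul_right_injective₀ hx0),
    Finset.card_image_of_injective _ (mul_right_injective₀ hy0)] at hle
  · omega
  · rw [Finset.disjoint_left]
    intro z hz hz'
    rw [Finset.mem_image] at hz hz'
    obtain ⟨m, hm, rfl⟩ := hz
    obtain ⟨m', hm', e⟩ := hz'
    have hm0' : m' ≠ 0 := fun e => hM0 (e ▸ hm')
    refine hyx (m * m'⁻¹) (hmul m hm _ (hinv m' hm')) ?_
    field_simp
    exact e
  · rw [Finset.disjoint_left]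
    intro z hz hz'
    rw [Finset.mem_union, Finset.mem_image, Finset.mem_image] at hz'
    rcases hz' with ⟨m, hm, rfl⟩ | ⟨m, hm, rfl⟩
    · have hm0 : m ≠ 0 := fun e => hM0 (e ▸ hm)
      refine hxM ?_
      have := hmul _ hz _ (hinv m hm)
      rwa [mul_inv_cancel_right₀ hm0] at this
    · have hm0 : m ≠ 0 := fun e => hM0 (e ▸ hm)
      refine hyM ?_
      have := hmul _ hz _ (hinv m hm)
      rwa [mul_inv_cancel_right₀ hm0] at this

/-- if all members through `1` are groups, one is everything -/
theorem full_mul {W : Finset F} {𝓓 : Set (Finset F)} {κ : ℕ} (h : Torus W 𝓓 κ)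
    (ha : ∃ a : F, a ≠ 0 ∧ a ∉ W)
    (hmul : ∀ D ∈ 𝓓, (1 : F) ∈ D → ∀ x ∈ D, ∀ y ∈ D, x * y ∈ D) :
    ∃ D ∈ 𝓓, ∀ x : F, x ≠ 0 → x ∈ D := by
  obtain ⟨a, ha0, ha⟩ := ha
  obtain ⟨D, hD, h1, -⟩ := h.ex 1 a one_ne_zero ha0 (by rwa [div_one])
  refine ⟨D, hD, fun y hy => ?_⟩
  by_cases hyW : y ∈ W
  · have := h.DW D hD y hyW 1 h1
    rwa [mul_one] at this
  obtain ⟨D', hD', h1', hy'⟩ := h.ex 1 y one_ne_zero hy (by rwa [div_one])
  refine subset_of_dvd _ _ (h.D0 D' hD') (h.D0 D hD) ⟨1, h1⟩ (hmul D' hD' h1')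
    (hmul D hD h1) ?_ hy'
  rw [h.Dc D hD, h.Dc D' hD']

end closure

section designs
variable {K : Type*} [Field K] [DecidableEq K] [Fintype K] {k : ℕ}
  {𝓑 : Finset (Finset (OnePoint K))}

/-- if `t` points of the block `B` go to points of the block `B'`, then `B` goes to `B'` -/
lemma image_block_gen {t : ℕ} (hD : IsDesign t k 1 𝓑)
    (hSL : ∀ A : SpecialLinearGroup (Fin 2) K, ∀ B ∈ 𝓑, B.image (slPerm A) ∈ 𝓑)
    (A : SpecialLinearGroup (Fin 2) K) {B B' : Finset (OnePoint K)} (hB : B ∈ 𝓑) (hB' : B' ∈ 𝓑)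
    (S : Finset (OnePoint K)) (hS : S.card = t) (hSB : S ⊆ B) (h : ∀ x ∈ S, slPerm A x ∈ B') :
    ∀ y ∈ B, slPerm A y ∈ B' := by
  have h1 : B.image (slPerm A) = B' := by
    refine block_unique hD (hSL A B hB) hB' (S := S.image (slPerm A)) ?_ ?_ ?_
    · rw [Finset.card_image_of_injective _ (slPerm A).injective, hS]
    · exact Finset.image_subset_image hSB
    · rw [Finset.image_subset_iff]; exact h
  intro y hy
  rw [← h1]
  exact Finset.mem_image_of_mem _ hy

lemma card_core' {B : Finset (OnePoint K)} (h1 : OnePoint.infty ∉ B)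
    (h0 : ((0 : K) : OnePoint K) ∈ B) : (core B).card + 1 = B.card := by
  have h2 : B = insert ((0 : K) : OnePoint K)
      ((core B).map ⟨fun x : K => (x : OnePoint K), OnePoint.coe_injective⟩) := by
    ext x
    simp only [Finset.mem_insert, Finset.mem_map, Function.Embedding.coeFn_mk]
    induction x using OnePoint.rec with
    | infty => simp [h1]
    | coe x =>
      constructor
      · intro hx
        by_cases hx0 : x = 0
        · left; rw [hx0]
        · right
          exact ⟨x, mem_core.2 ⟨hx0, hx⟩, rfl⟩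
      · rintro (h | ⟨y, hy, h⟩)
        · rw [h]; exact h0
        · rw [← h]; exact (mem_core.1 hy).2
  conv_rhs => rw [h2]
  rw [Finset.card_insert_of_notMem, Finset.card_map]
  simp only [Finset.mem_map, Function.Embedding.coeFn_mk, not_exists, not_and]
  intro x hx h
  rw [OnePoint.coe_eq_coe] at h
  exact (mem_core.1 hx).1 h

/-- the five points `0, x, -x, y, -y` -/
noncomputable def fiveA (x y : K) : Finset (OnePoint K) :=
  {((0 : K) : OnePoint K), (x : OnePoint K), ((-x : K) : OnePoint K),
    (y : OnePoint K), ((-y : K) : OnePoint K)}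

omit [Fintype K] in
lemma fiveA_card (h2 : (2 : K) ≠ 0) {x y : K} (hx : x ≠ 0) (hy : y ≠ 0) (hxy : x ≠ y)
    (hxy' : x ≠ -y) : (fiveA x y).card = 5 := by
  have hxx : x ≠ -x := fun e => (mul_ne_zero h2 hx) (by linear_combination e)
  have hyy : y ≠ -y := fun e => (mul_ne_zero h2 hy) (by linear_combination e)
  unfold fiveA
  rw [Finset.card_insert_of_notMem, Finset.card_insert_of_notMem,
    Finset.card_insert_of_notMem, Finset.card_insert_of_notMem, Finset.card_singleton]
  · rw [Finset.mem_singleton, OnePoint.coe_eq_coe]; exact hyy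
  · simp only [Finset.mem_insert, Finset.mem_singleton, OnePoint.coe_eq_coe, not_or]
    exact ⟨fun e => hxy' (by linear_combination -e), fun e => hxy (by linear_combination -e)⟩
  · simp only [Finset.mem_insert, Finset.mem_singleton, OnePoint.coe_eq_coe, not_or]
    exact ⟨hxx, hxy, hxy'⟩
  · simp only [Finset.mem_insert, Finset.mem_singleton, OnePoint.coe_eq_coe, not_or]
    exact ⟨hx.symm, (neg_ne_zero.2 hx).symm, hy.symm, (neg_ne_zero.2 hy).symm⟩

omit [Fintype K] [DecidableEq K] in
lemma even_of_neg (h2 : (2 : K) ≠ 0) (S : Finset K) (h0 : (0 : K) ∉ S) (hneg : ∀ z ∈ S, -z ∈ S) :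
    Even S.card := by
  classical
  refine even_of_free (Equiv.neg K) (fun x => neg_neg x) S ?_ ?_
  · refine Finset.eq_of_subset_of_card_le ?_ ?_
    · rw [Finset.image_subset_iff]
      exact hneg
    · rw [Finset.card_image_of_injective _ (Equiv.neg K).injective]
  · intro x hx e
    have hx0 : x ≠ 0 := fun e => h0 (e ▸ hx)
    have e' : -x = x := e
    exact (mul_ne_zero h2 hx0) (by linear_combination -e')

section one
variable (hD : IsDesign 5 k 1 𝓑)
  (hSL : ∀ A : SpecialLinearGroup (Fin 2) K, ∀ B ∈ 𝓑, B.image (slPerm A) ∈ 𝓑)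
  (hm1 : IsSquare (-1 : K)) (h2 : (2 : K) ≠ 0)
include hD hSL hm1 h2

lemma five_inv {B : Finset (OnePoint K)} (hB : B ∈ 𝓑) {x y : K} (hx : x ≠ 0) (hy : y ≠ 0)
    (hxy : x ≠ y) (hxy' : x ≠ -y) (hsub : fiveA x y ⊆ B) : ∀ z ∈ core B, -z ∈ core B := by
  obtain ⟨s, hs⟩ := hm1
  have hs0 : s ≠ 0 := by
    rintro rfl
    exact (neg_ne_zero.2 (one_ne_zero (α := K))) (by rw [hs, zero_mul])
  have hdet : (-1 : K) * 1 - 0 * 0 = s ^ 2 := by linear_combination hs
  intro z hz
  have h1 := image_block_gen hD hSL (mobM (-1) 0 0 1 s hdet hs0) hB hB (fiveA x y)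
    (fiveA_card h2 hx hy hxy hxy') hsub (by
      intro w hw
      simp only [fiveA, Finset.mem_insert, Finset.mem_singleton] at hw
      refine hsub ?_
      rcases hw with rfl | rfl | rfl | rfl | rfl
      · rw [mobM_mul]; simp [fiveA]
      · rw [mobM_mul]; simp [fiveA]
      · rw [mobM_mul]; simp [fiveA]
      · rw [mobM_mul]; simp [fiveA]
      · rw [mobM_mul]; simp [fiveA]) z (mem_core.1 hz).2
  rw [mobM_mul, neg_one_mul] at h1
  exact mem_core.2 ⟨neg_ne_zero.2 (mem_core.1 hz).1, h1⟩

/-- `q = 1 (mod 4)`, `k` even -/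
theorem five_one_even (hk : 5 < k) (hkev : Even k) (hkq : k < Fintype.card K + 1) : False := by
  obtain ⟨s, hs⟩ := id hm1
  have hsubset : ∀ B : Finset (OnePoint K), ((0 : K) : OnePoint K) ∈ B →
      (∀ z ∈ core B, -z ∈ core B) → ∀ x ∈ core B, ∀ y ∈ core B, fiveA x y ⊆ B := by
    intro B h0 hneg x hx y hy w hw
    simp only [fiveA, Finset.mem_insert, Finset.mem_singleton] at hw
    rcases hw with rfl | rfl | rfl | rfl | rfl
    · exact h0
    · exact (mem_core.1 hx).2
    · exact (mem_core.1 (hneg x hx)).2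
    · exact (mem_core.1 hy).2
    · exact (mem_core.1 (hneg y hy)).2
  have h11 : (1 : K) ≠ -1 := fun e => h2 (by linear_combination e)
  have hWne : ∀ x y : K, x ≠ 0 → y ≠ 0 → y / x ∉ ({1, -1} : Finset K) → x ≠ y ∧ x ≠ -y := by
    intro x y hx hy h
    simp only [Finset.mem_insert, Finset.mem_singleton, not_or] at h
    refine ⟨fun e => h.1 (by rw [e, div_self hy]), fun e => h.2 ?_⟩
    rw [div_eq_iff hx, e]; ring
  have hinf : ∀ B ∈ 𝓑, ((0 : K) : OnePoint K) ∈ B → (∀ z ∈ core B, -z ∈ core B) →
      OnePoint.infty ∈ B := by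
    intro B hB h0 hneg
    by_contra hi
    have e1 := card_core' hi h0
    rw [hD.1 B hB] at e1
    have e2 := even_of_neg h2 (core B) (zero_notMem_core B) hneg
    rw [← e1, Nat.even_add_one] at hkev
    exact hkev e2
  let 𝓓 : Set (Finset K) := {D | ∃ B ∈ 𝓑, OnePoint.infty ∈ B ∧ ((0 : K) : OnePoint K) ∈ B ∧
    (∀ z ∈ core B, -z ∈ core B) ∧ D = core B}
  have hT : Torus ({1, -1} : Finset K) 𝓓 (k - 2) := by
    refine ⟨?_, by simp, ?_, ?_, ?_, ?_, ?_, ?_⟩
    · simp
    · intro x hx y hy
      simp only [Finset.mem_insert, Finset.mem_singleton] at hx hy ⊢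
      rcases hx with rfl | rfl <;> rcases hy with rfl | rfl <;> simp
    · rintro D ⟨B, -, -, -, -, rfl⟩
      exact zero_notMem_core B
    · rintro D ⟨B, hB, hi, h0, -, rfl⟩
      have := card_core hi h0
      rw [hD.1 B hB] at this
      omega
    · rintro D ⟨B, hB, hi, h0, hneg, rfl⟩ w hw x hx
      simp only [Finset.mem_insert, Finset.mem_singleton] at hw
      rcases hw with rfl | rfl
      · rwa [one_mul]
      · rw [neg_one_mul]; exact hneg x hx
    · intro x y hx hy hxy
      obtain ⟨h3, h4⟩ := hWne x y hx hy hxy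
      obtain ⟨B, hB, hS⟩ := block_exists hD (fiveA_card h2 hx hy h3 h4)
      have h0 : ((0 : K) : OnePoint K) ∈ B := hS (by simp [fiveA])
      have hneg := five_inv hD hSL hm1 h2 hB hx hy h3 h4 hS
      refine ⟨core B, ⟨B, hB, hinf B hB h0 hneg, h0, hneg, rfl⟩, ?_, ?_⟩
      · exact mem_core.2 ⟨hx, hS (by simp [fiveA])⟩
      · exact mem_core.2 ⟨hy, hS (by simp [fiveA])⟩
    · rintro D ⟨B, hB, hi, h0, hneg, rfl⟩ D' ⟨B', hB', hi', h0', hneg', rfl⟩ x y hx hy hx' hy' hxy
      obtain ⟨h3, h4⟩ := hWne x y (mem_core.1 hx).1 (mem_core.1 hy).1 hxy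
      have : B = B' := block_unique hD hB hB' (S := fiveA x y)
        (by rw [fiveA_card h2 (mem_core.1 hx).1 (mem_core.1 hy).1 h3 h4])
        (hsubset B h0 hneg x hx y hy) (hsubset B' h0' hneg' x hx' y hy')
      rw [this]
  obtain ⟨D, ⟨B, hB, hi, h0, -, rfl⟩, hall⟩ := full_mul hT (by
    obtain ⟨a, -, ha⟩ : ∃ a ∈ (univ : Finset K), a ∉ ({0, 1, -1} : Finset K) := by
      refine Finset.exists_mem_notMem_of_card_lt_card (lt_of_le_of_lt Finset.card_le_three ?_)
      rw [Finset.card_univ]
      omega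
    rw [Finset.mem_insert, not_or] at ha
    exact ⟨a, ha⟩) (by
    rintro D ⟨B, hB, hi, h0, hneg, rfl⟩ h1
    refine closure_sq (core B) (zero_notMem_core B) h1 ?_
    intro x hx z hz
    have hx0 := (mem_core.1 hx).1
    have hz0 := (mem_core.1 hz).1
    by_cases hzx : z = x
    · rw [hzx, mul_div_cancel_right₀ _ hx0]; exact hx
    by_cases hzx' : z = -x
    · rw [hzx', show x * x / -x = -x by field_simp]; exact hneg x hx
    -- the reflection `σ : w ↦ x ^ 2 / w`
    have hst : -(x * x) = (s * x) * (s * x) := by linear_combination x * x * hs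
    have hs0 : s ≠ 0 := by
      rintro rfl
      exact (neg_ne_zero.2 (one_ne_zero (α := K))) (by rw [hs, zero_mul])
    have hsx0 : s * x ≠ 0 := mul_ne_zero hs0 hx0
    have hdet2 : (0 : K) * 0 - x * x * 1 = (s * x) ^ 2 := by linear_combination hst
    set σ := slPerm (mobM 0 (x * x) 1 0 (s * x) hdet2 hsx0) with hσ
    have hσc : ∀ w : K, w ≠ 0 → σ (w : OnePoint K) = ((x * x / w : K) : OnePoint K) :=
      fun w hw => mobM_inv _ _ _ _ w hw
    have hσi : σ OnePoint.infty = ((0 : K) : OnePoint K) := by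
      rw [hσ, mob_infty _ _ _ _ _ _ _ one_ne_zero, zero_div]
    have hσ0 : σ ((0 : K) : OnePoint K) = OnePoint.infty := by
      rw [hσ, mob_coe' _ _ _ _ _ _ _ _ (by ring)]
    have hσσ : ∀ p, σ (σ p) = p := by
      intro p
      induction p using OnePoint.rec with
      | infty => rw [hσi, hσ0]
      | coe w =>
        by_cases hw : w = 0
        · rw [hw, hσ0, hσi]
        · rw [hσc w hw, hσc _ (div_ne_zero (mul_ne_zero hx0 hx0) hw)]
          congr 1
          field_simp
    have hw0 : x * x / z ≠ 0 := div_ne_zero (mul_ne_zero hx0 hx0) hz0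
    have hwz : x * x / z ≠ z := by
      intro e
      rw [div_eq_iff hz0] at e
      have : (z - x) * (z + x) = 0 := by linear_combination -e
      rcases mul_eq_zero.1 this with e1 | e1
      · exact hzx (sub_eq_zero.1 e1)
      · exact hzx' (by linear_combination e1)
    have hwx : x * x / z ≠ x := by
      intro e
      rw [div_eq_iff hz0] at e
      exact hzx (mul_left_cancel₀ hx0 e.symm)
    let T : Finset (OnePoint K) := {OnePoint.infty, ((0 : K) : OnePoint K), (x : OnePoint K),
      (z : OnePoint K), ((x * x / z : K) : OnePoint K)}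
    have hTc : T.card = 5 := by
      rw [Finset.card_insert_of_notMem, Finset.card_insert_of_notMem,
        Finset.card_insert_of_notMem, Finset.card_insert_of_notMem, Finset.card_singleton]
      · rw [Finset.mem_singleton, OnePoint.coe_eq_coe]; exact hwz.symm
      · simp only [Finset.mem_insert, Finset.mem_singleton, OnePoint.coe_eq_coe, not_or]
        exact ⟨fun e => hzx e.symm, hwx.symm⟩
      · simp only [Finset.mem_insert, Finset.mem_singleton, OnePoint.coe_eq_coe, not_or]
        exact ⟨hx0.symm, hz0.symm, hw0.symm⟩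
      · simp
    obtain ⟨B', hB', hTB⟩ := block_exists hD hTc
    have hTm : ∀ w ∈ T, w ∈ B' := hTB
    have hinv : ∀ p ∈ B', σ p ∈ B' := by
      refine image_block_gen hD hSL _ hB' hB' T hTc hTB ?_
      intro w hw
      simp only [T, Finset.mem_insert, Finset.mem_singleton] at hw
      refine hTm _ ?_
      rcases hw with rfl | rfl | rfl | rfl | rfl
      · rw [← hσ, hσi]; simp [T]
      · rw [← hσ, hσ0]; simp [T]
      · rw [← hσ, hσc x hx0, mul_div_cancel_right₀ _ hx0]; simp [T]
      · rw [← hσ, hσc z hz0]; simp [T]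
      · rw [← hσ, hσc _ hw0, show x * x / (x * x / z) = z by field_simp]; simp [T]
    -- the fixed points
    have hnx : ((-x : K) : OnePoint K) ∈ B' := by
      by_contra hnx
      have e1 := odd_fixed B' σ hinv (fun p _ => hσσ p)
      rw [hD.1 B' hB'] at e1
      have e2 : B'.filter (fun p => σ p = p) = {(x : OnePoint K)} := by
        ext p
        rw [Finset.mem_filter, Finset.mem_singleton]
        constructor
        · rintro ⟨hp, hpp⟩
          induction p using OnePoint.rec with
          | infty => rw [hσi] at hpp; exact absurd hpp (OnePoint.coe_ne_infty _)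
          | coe w =>
            by_cases hw : w = 0
            · rw [hw, hσ0] at hpp; exact absurd hpp (OnePoint.infty_ne_coe _)
            · rw [hσc w hw, OnePoint.coe_eq_coe, div_eq_iff hw] at hpp
              have : (w - x) * (w + x) = 0 := by linear_combination -hpp
              rcases mul_eq_zero.1 this with e3 | e3
              · rw [sub_eq_zero.1 e3]
              · exfalso
                have e4 : w = -x := by linear_combination e3
                rw [e4] at hp
                exact hnx hp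
        · rintro rfl
          exact ⟨hTm _ (by simp [T]), by rw [hσc x hx0, mul_div_cancel_right₀ _ hx0]⟩
      rw [e2, Finset.card_singleton] at e1
      exact (Nat.not_odd_iff_even.2 hkev) (e1.2 odd_one)
    -- the two blocks are equal
    let T' : Finset (OnePoint K) := {OnePoint.infty, ((0 : K) : OnePoint K), (x : OnePoint K),
      ((-x : K) : OnePoint K), (z : OnePoint K)}
    have hTc' : T'.card = 5 := by
      rw [Finset.card_insert_of_notMem, Finset.card_insert_of_notMem,
        Finset.card_insert_of_notMem, Finset.card_insert_of_notMem, Finset.card_singleton]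
      · rw [Finset.mem_singleton, OnePoint.coe_eq_coe]; exact fun e => hzx' e.symm
      · simp only [Finset.mem_insert, Finset.mem_singleton, OnePoint.coe_eq_coe, not_or]
        exact ⟨fun e => (mul_ne_zero h2 hx0) (by linear_combination e), fun e => hzx e.symm⟩
      · simp only [Finset.mem_insert, Finset.mem_singleton, OnePoint.coe_eq_coe, not_or]
        exact ⟨hx0.symm, (neg_ne_zero.2 hx0).symm, hz0.symm⟩
      · simp
    have hBB : B' = B := by
      refine block_unique hD hB' hB (S := T') (by rw [hTc']) ?_ ?_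
      · intro w hw
        simp only [T', Finset.mem_insert, Finset.mem_singleton] at hw
        rcases hw with rfl | rfl | rfl | rfl | rfl
        · exact hTm _ (by simp [T])
        · exact hTm _ (by simp [T])
        · exact hTm _ (by simp [T])
        · exact hnx
        · exact hTm _ (by simp [T])
      · intro w hw
        simp only [T', Finset.mem_insert, Finset.mem_singleton] at hw
        rcases hw with rfl | rfl | rfl | rfl | rfl
        · exact hi
        · exact h0
        · exact (mem_core.1 hx).2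
        · exact (mem_core.1 (hneg x hx)).2
        · exact (mem_core.1 hz).2
    rw [← hBB]
    exact mem_core.2 ⟨hw0, hTm _ (by simp [T])⟩)
  have h1 : B = Finset.univ := by
    ext x
    refine ⟨fun _ => Finset.mem_univ _, fun _ => ?_⟩
    induction x using OnePoint.rec with
    | infty => exact hi
    | coe x =>
      by_cases hx : x = 0
      · rw [hx]; exact h0
      · exact (mem_core.1 (hall x hx)).2
  have h3 := hD.1 B hB
  rw [h1, Finset.card_univ, show Fintype.card (OnePoint K) = Fintype.card K + 1 from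
    Fintype.card_option] at h3
  omega

end one

end designs

end Pool.Agent.N86.S46
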