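import Pool.Agent.N86.S46.Five

/-!
# Steiner systems `S(5, k, q + 1)` on the projective line: divisibility from the invariant blocks
-/

set_option autoImplicit false

namespace Pool.Agent.N86.S46

open Finset Matrix Pool.Agent.N86.S6 Pool.Agent.N86.S4

variable {K : Type*} [Field K] [DecidableEq K] [Fintype K] {k : ℕ}
  {𝓑 : Finset (Finset (OnePoint K))}

/-- equal fibres -/
lemma dvd_of_fibres {α β : Type*} [DecidableEq α] [DecidableEq β] (P : Finset α) (f : α → β)
    (c : ℕ) (h : ∀ y ∈ P, (P.filter (fun z => f z = f y)).card = c) : c ∣ P.card := by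
  rw [Finset.card_eq_sum_card_image f P]
  refine Finset.dvd_sum ?_
  intro b hb
  rw [Finset.mem_image] at hb
  obtain ⟨y, hy, rfl⟩ := hb
  rw [h y hy]

section one
variable (hD : IsDesign 5 k 1 𝓑)
  (hSL : ∀ A : SpecialLinearGroup (Fin 2) K, ∀ B ∈ 𝓑, B.image (slPerm A) ∈ 𝓑)
include hD hSL

/-- `q = 1 (mod 4)`, `k` odd -/
theorem five_one_odd (hm1 : IsSquare (-1 : K)) (h2 : (2 : K) ≠ 0) (hk : 5 < k) (hkodd : Odd k)
    (hkq : k < Fintype.card K + 1) : k - 3 ∣ Fintype.card K - 3 := by
  have h11 : (1 : K) ≠ -1 := fun e => h2 (by linear_combination e)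
  set P : Finset K := univ \ {0, 1, -1} with hP
  have hPm : ∀ y, y ∈ P ↔ y ≠ 0 ∧ y ≠ 1 ∧ y ≠ -1 := by
    intro y
    rw [hP, Finset.mem_sdiff]
    simp only [Finset.mem_univ, true_and, Finset.mem_insert, Finset.mem_singleton, not_or]
  have hPc : P.card = Fintype.card K - 3 := by
    rw [hP, Finset.card_sdiff_of_subset (Finset.subset_univ _), Finset.card_univ,
      Finset.card_insert_of_notMem, Finset.card_insert_of_notMem, Finset.card_singleton]
    · rw [Finset.mem_singleton]; exact h11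
    · simp
  have hex : ∀ y, ∃ B, y ∈ P → (B ∈ 𝓑 ∧ fiveA 1 y ⊆ B) := by
    intro y
    by_cases hy : y ∈ P
    · have hy' := (hPm y).1 hy
      obtain ⟨B, hB, hS⟩ := block_exists hD (fiveA_card h2 one_ne_zero hy'.1 hy'.2.1.symm
        (fun e => hy'.2.2 (by rw [e]; ring)))
      exact ⟨B, fun _ => ⟨hB, hS⟩⟩
    · exact ⟨∅, fun h => absurd h hy⟩
  choose f hf using hex
  have hinv : ∀ y ∈ P, ∀ z ∈ core (f y), -z ∈ core (f y) := by
    intro y hy
    have hy' := (hPm y).1 hy
    exact five_inv hD hSL hm1 h2 (hf y hy).1 one_ne_zero hy'.1 hy'.2.1.symm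
      (fun e => hy'.2.2 (by rw [e]; ring)) (hf y hy).2
  rw [← hPc]
  refine dvd_of_fibres P f _ ?_
  intro y hy
  have hy' := (hPm y).1 hy
  obtain ⟨hB, hS⟩ := hf y hy
  have h0 : ((0 : K) : OnePoint K) ∈ f y := hS (by simp [fiveA])
  have h1 : (1 : K) ∈ core (f y) := mem_core.2 ⟨one_ne_zero, hS (by simp [fiveA])⟩
  have hn1 : (-1 : K) ∈ core (f y) := hinv y hy 1 h1
  have hi : OnePoint.infty ∉ f y := by
    intro hi
    have e1 := card_core hi h0
    rw [hD.1 _ hB] at e1
    have e2 := even_of_neg h2 (core (f y)) (zero_notMem_core _) (hinv y hy)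
    rw [← e1] at hkodd
    exact (Nat.not_even_iff_odd.2 hkodd) (e2.add (by decide))
  have hset : P.filter (fun z => f z = f y) = core (f y) \ {1, -1} := by
    ext z
    rw [Finset.mem_filter, hPm, Finset.mem_sdiff]
    simp only [Finset.mem_insert, Finset.mem_singleton, not_or]
    constructor
    · rintro ⟨⟨hz0, hz1, hz2⟩, hfz⟩
      refine ⟨?_, hz1, hz2⟩
      have := (hf z ((hPm z).2 ⟨hz0, hz1, hz2⟩)).2
      rw [hfz] at this
      exact mem_core.2 ⟨hz0, this (by simp [fiveA])⟩
    · rintro ⟨hz, hz1, hz2⟩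
      have hz0 := (mem_core.1 hz).1
      have hzP : z ∈ P := (hPm z).2 ⟨hz0, hz1, hz2⟩
      refine ⟨⟨hz0, hz1, hz2⟩, ?_⟩
      refine block_unique hD (hf z hzP).1 hB (S := fiveA 1 z)
        (by rw [fiveA_card h2 one_ne_zero hz0 (Ne.symm hz1) (fun e => hz2 (by rw [e]; ring))])
        (hf z hzP).2 ?_
      intro w hw
      simp only [fiveA, Finset.mem_insert, Finset.mem_singleton] at hw
      rcases hw with rfl | rfl | rfl | rfl | rfl
      · exact h0
      · exact (mem_core.1 h1).2
      · exact (mem_core.1 hn1).2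
      · exact (mem_core.1 hz).2
      · exact (mem_core.1 (hinv y hy z hz)).2
  have e1 := card_core' hi h0
  rw [hD.1 _ hB] at e1
  rw [hset, Finset.card_sdiff_of_subset, Finset.card_pair h11]
  · omega
  · rw [Finset.insert_subset_iff, Finset.singleton_subset_iff]
    exact ⟨h1, hn1⟩

end one

/-- the five points `∞, x, x + a, y, y + a` -/
noncomputable def fiveB (a x y : K) : Finset (OnePoint K) :=
  {OnePoint.infty, (x : OnePoint K), ((x + a : K) : OnePoint K),
    (y : OnePoint K), ((y + a : K) : OnePoint K)}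

omit [Fintype K] in
lemma fiveB_card (h2 : (2 : K) = 0) {a x y : K} (ha : a ≠ 0) (hxy : y ≠ x)
    (hxy' : y ≠ x + a) : (fiveB a x y).card = 5 := by
  have haa : a + a = 0 := by linear_combination a * h2
  unfold fiveB
  rw [Finset.card_insert_of_notMem, Finset.card_insert_of_notMem,
    Finset.card_insert_of_notMem, Finset.card_insert_of_notMem, Finset.card_singleton]
  · rw [Finset.mem_singleton, OnePoint.coe_eq_coe]
    exact fun e => ha (by linear_combination -e)
  · simp only [Finset.mem_insert, Finset.mem_singleton, OnePoint.coe_eq_coe, not_or]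
    exact ⟨hxy'.symm, fun e => hxy (by linear_combination -e)⟩
  · simp only [Finset.mem_insert, Finset.mem_singleton, OnePoint.coe_eq_coe, not_or]
    exact ⟨fun e => ha (by linear_combination -e), hxy.symm,
      fun e => hxy' (by linear_combination -e - haa)⟩
  · simp

/-- the elements of `K` in a block -/
noncomputable def fin (B : Finset (OnePoint K)) : Finset K :=
  Finset.univ.filter (fun x => (x : OnePoint K) ∈ B)

lemma mem_fin {B : Finset (OnePoint K)} {x : K} : x ∈ fin B ↔ (x : OnePoint K) ∈ B := by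
  unfold fin
  rw [Finset.mem_filter]
  exact ⟨fun h => h.2, fun h => ⟨Finset.mem_univ _, h⟩⟩

lemma card_fin {B : Finset (OnePoint K)} (h1 : OnePoint.infty ∈ B) :
    (fin B).card + 1 = B.card := by
  have h2 : B = insert OnePoint.infty
      ((fin B).map ⟨fun x : K => (x : OnePoint K), OnePoint.coe_injective⟩) := by
    ext x
    simp only [Finset.mem_insert, Finset.mem_map, Function.Embedding.coeFn_mk]
    induction x using OnePoint.rec with
    | infty => simp [h1]
    | coe x =>
      constructor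
      · intro hx
        right
        exact ⟨x, mem_fin.2 hx, rfl⟩
      · rintro (h | ⟨y, hy, h⟩)
        · exact absurd h (OnePoint.coe_ne_infty _)
        · rw [← h]; exact mem_fin.1 hy
  conv_rhs => rw [h2]
  rw [Finset.card_insert_of_notMem, Finset.card_map]
  simp only [Finset.mem_map, Function.Embedding.coeFn_mk, not_exists, not_and]
  exact fun x _ => OnePoint.coe_ne_infty _

section two
variable (hD : IsDesign 5 k 1 𝓑)
  (hSL : ∀ A : SpecialLinearGroup (Fin 2) K, ∀ B ∈ 𝓑, B.image (slPerm A) ∈ 𝓑)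
  (h2 : (2 : K) = 0)
include hD hSL h2

lemma five_inv_two {B : Finset (OnePoint K)} (hB : B ∈ 𝓑) {a x y : K} (ha : a ≠ 0) (hxy : y ≠ x)
    (hxy' : y ≠ x + a) (hsub : fiveB a x y ⊆ B) : ∀ z ∈ fin B, z + a ∈ fin B := by
  have haa : a + a = 0 := by linear_combination a * h2
  have hdet : (1 : K) * 1 - a * 0 = 1 ^ 2 := by ring
  have hc : ∀ z : K, slPerm (mobM 1 a 0 1 1 hdet one_ne_zero) (z : OnePoint K) =
      ((z + a : K) : OnePoint K) := by
    intro z
    rw [mob_coe _ _ _ _ _ _ _ z (by rw [zero_mul, zero_add]; exact one_ne_zero)]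
    congr 1
    rw [zero_mul, zero_add, one_mul, div_one]
  intro z hz
  have h1 := image_block_gen hD hSL (mobM 1 a 0 1 1 hdet one_ne_zero) hB hB (fiveB a x y)
    (fiveB_card h2 ha hxy hxy') hsub (by
      intro w hw
      simp only [fiveB, Finset.mem_insert, Finset.mem_singleton] at hw
      refine hsub ?_
      rcases hw with rfl | rfl | rfl | rfl | rfl
      · rw [mob_infty' _ _ _ _ _ _ _ rfl]; simp [fiveB]
      · rw [hc]; simp [fiveB]
      · rw [hc, show x + a + a = x by linear_combination haa]; simp [fiveB]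
      · rw [hc]; simp [fiveB]
      · rw [hc, show y + a + a = y by linear_combination haa]; simp [fiveB]) z (mem_fin.1 hz)
  rw [hc] at h1
  exact mem_fin.2 h1

/-- a block through `∞` and an affine plane is an additive group -/
lemma five_two_group {B : Finset (OnePoint K)} (hB : B ∈ 𝓑) {y : K} (hy0 : y ≠ 0) (hy1 : y ≠ 1)
    (hsub : fiveB 1 0 y ⊆ B) : ∀ x ∈ fin B, ∀ z ∈ fin B, z + x ∈ fin B := by
  have hi : OnePoint.infty ∈ B := hsub (by simp [fiveB])
  have h0 : (0 : K) ∈ fin B := mem_fin.2 (hsub (by simp [fiveB]))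
  have h1 : (1 : K) ∈ fin B := mem_fin.2 (hsub (by simp [fiveB]))
  have hinv1 := five_inv_two hD hSL h2 hB (a := 1) (x := 0) (y := y) one_ne_zero hy0
    (by rw [zero_add]; exact hy1) hsub
  intro x hx
  by_cases hx0 : x = 0
  · intro z hz; rwa [hx0, add_zero]
  by_cases hx1 : x = 1
  · rw [hx1]; exact hinv1
  have hx1' := hinv1 x hx
  refine five_inv_two hD hSL h2 hB (a := x) (x := 0) (y := 1) hx0 one_ne_zero
    (by rw [zero_add]; exact fun e => hx1 e.symm) ?_
  intro w hw
  simp only [fiveB, Finset.mem_insert, Finset.mem_singleton] at hw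
  rcases hw with rfl | rfl | rfl | rfl | rfl
  · exact hi
  · exact mem_fin.1 h0
  · rw [zero_add]; exact mem_fin.1 hx
  · exact mem_fin.1 h1
  · rw [add_comm]; exact mem_fin.1 hx1'

/-- `q` even -/
theorem five_two (hk : 5 < k) (hkq : k < Fintype.card K + 1) {e : ℕ}
    (hq : Fintype.card K = 2 ^ e) : ∃ m, k = 2 ^ m + 1 ∧ 3 ≤ m ∧ (m - 1) ∣ (e - 1) := by
  set P : Finset K := univ \ {0, 1} with hP
  have hPm : ∀ y, y ∈ P ↔ y ≠ 0 ∧ y ≠ 1 := by
    intro y
    rw [hP, Finset.mem_sdiff]
    simp only [Finset.mem_univ, true_and, Finset.mem_insert, Finset.mem_singleton, not_or]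
  have hPc : P.card = Fintype.card K - 2 := by
    rw [hP, Finset.card_sdiff_of_subset (Finset.subset_univ _), Finset.card_univ,
      Finset.card_pair zero_ne_one]
  have hex : ∀ y, ∃ B, y ∈ P → (B ∈ 𝓑 ∧ fiveB 1 0 y ⊆ B) := by
    intro y
    by_cases hy : y ∈ P
    · have hy' := (hPm y).1 hy
      obtain ⟨B, hB, hS⟩ := block_exists hD (fiveB_card h2 (a := 1) (x := 0) one_ne_zero hy'.1
        (by rw [zero_add]; exact hy'.2))
      exact ⟨B, fun _ => ⟨hB, hS⟩⟩
    · exact ⟨∅, fun h => absurd h hy⟩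
  choose f hf using hex
  have hgrp : ∀ y ∈ P, ∀ x ∈ fin (f y), ∀ z ∈ fin (f y), z + x ∈ fin (f y) := by
    intro y hy
    have hy' := (hPm y).1 hy
    exact five_two_group hD hSL h2 (hf y hy).1 hy'.1 hy'.2 (hf y hy).2
  have hdvd : k - 3 ∣ P.card := by
    refine dvd_of_fibres P f _ ?_
    intro y hy
    have hy' := (hPm y).1 hy
    obtain ⟨hB, hS⟩ := hf y hy
    have hi : OnePoint.infty ∈ f y := hS (by simp [fiveB])
    have h0 : (0 : K) ∈ fin (f y) := mem_fin.2 (hS (by simp [fiveB]))
    have h1 : (1 : K) ∈ fin (f y) := mem_fin.2 (hS (by simp [fiveB]))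
    have hset : P.filter (fun z => f z = f y) = fin (f y) \ {0, 1} := by
      ext z
      rw [Finset.mem_filter, hPm, Finset.mem_sdiff]
      simp only [Finset.mem_insert, Finset.mem_singleton, not_or]
      constructor
      · rintro ⟨⟨hz0, hz1⟩, hfz⟩
        refine ⟨?_, hz0, hz1⟩
        have := (hf z ((hPm z).2 ⟨hz0, hz1⟩)).2
        rw [hfz] at this
        exact mem_fin.2 (this (by simp [fiveB]))
      · rintro ⟨hz, hz0, hz1⟩
        have hzP : z ∈ P := (hPm z).2 ⟨hz0, hz1⟩
        refine ⟨⟨hz0, hz1⟩, ?_⟩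
        refine block_unique hD (hf z hzP).1 hB (S := fiveB 1 0 z)
          (by rw [fiveB_card h2 (a := 1) (x := 0) one_ne_zero hz0 (by rw [zero_add]; exact hz1)])
          (hf z hzP).2 ?_
        intro w hw
        simp only [fiveB, Finset.mem_insert, Finset.mem_singleton] at hw
        rcases hw with rfl | rfl | rfl | rfl | rfl
        · exact hi
        · exact mem_fin.1 h0
        · rw [zero_add]; exact mem_fin.1 h1
        · exact mem_fin.1 hz
        · exact mem_fin.1 (hgrp y hy 1 h1 z hz)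
    have e1 := card_fin hi
    rw [hD.1 _ hB] at e1
    rw [hset, Finset.card_sdiff_of_subset, Finset.card_pair zero_ne_one]
    · omega
    · rw [Finset.insert_subset_iff, Finset.singleton_subset_iff]
      exact ⟨h0, h1⟩
  -- one block
  obtain ⟨y, hy⟩ : P.Nonempty := by
    rw [← Finset.card_pos, hPc]; omega
  obtain ⟨hB, hS⟩ := hf y hy
  have hi : OnePoint.infty ∈ f y := hS (by simp [fiveB])
  have h0 : (0 : K) ∈ fin (f y) := mem_fin.2 (hS (by simp [fiveB]))
  have hneg : ∀ z : K, -z = z := fun z => by linear_combination -z * h2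
  let G : AddSubgroup K :=
    { carrier := {x | x ∈ fin (f y)}
      add_mem' := fun {a b} ha hb => hgrp y hy b hb a ha
      zero_mem' := h0
      neg_mem' := fun {a} ha => by
        show -a ∈ fin (f y)
        rw [hneg]; exact ha }
  have hG : Nat.card G = k - 1 := by
    have e1 := card_fin hi
    rw [hD.1 _ hB] at e1
    have e2 : Nat.card G = (fin (f y)).card := by
      have : Nat.card G = Nat.card {x // x ∈ fin (f y)} := rfl
      rw [this, Nat.card_eq_fintype_card, Fintype.card_coe]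
    omega
  have hG2 := AddSubgroup.card_addSubgroup_dvd_card G
  rw [hG, Nat.card_eq_fintype_card, hq] at hG2
  obtain ⟨m, hme, hm⟩ := (Nat.dvd_prime_pow Nat.prime_two).1 hG2
  have hm3 : 3 ≤ m := by
    by_contra hcon
    have h4 : m ≤ 2 := by omega
    have := Nat.pow_le_pow_right (n := 2) (by norm_num) h4
    omega
  refine ⟨m, by omega, hm3, ?_⟩
  rw [hPc, hq, show k - 3 = 2 ^ m - 2 by omega] at hdvd
  obtain ⟨m', rfl⟩ : ∃ m', m = m' + 1 := ⟨m - 1, by omega⟩
  obtain ⟨e', rfl⟩ : ∃ e', e = e' + 1 := ⟨e - 1, by omega⟩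
  have h5 : 2 ^ m' - 1 ∣ 2 ^ e' - 1 := by
    have e1 : 2 ^ (m' + 1) - 2 = 2 * (2 ^ m' - 1) := by rw [pow_succ]; omega
    have e2 : 2 ^ (e' + 1) - 2 = 2 * (2 ^ e' - 1) := by rw [pow_succ]; omega
    rw [e1, e2] at hdvd
    exact Nat.dvd_of_mul_dvd_mul_left (by norm_num) hdvd
  have h6 := Nat.pow_sub_one_gcd_pow_sub_one 2 m' e'
  rw [Nat.gcd_eq_left h5] at h6
  have h7 : 2 ^ m' = 2 ^ m'.gcd e' := by
    have e1 : 0 < 2 ^ m' := by positivity
    have e2 : 0 < 2 ^ m'.gcd e' := by positivity
    omega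
  have h8 := Nat.pow_right_injective (le_refl 2) h7
  rw [Nat.add_sub_cancel, Nat.add_sub_cancel, h8]
  exact Nat.gcd_dvd_right _ _

end two

end Pool.Agent.N86.S46
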