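import Pool.Agent.N86.S46.FiveCount

/-!
# Steiner systems of strength four, five and six on the projective line: summary
-/

set_option autoImplicit false

namespace Pool.Agent.N86.S46

open Finset Matrix Pool.Agent.N86.S6 Pool.Agent.N86.S4

variable {K : Type*} [Field K] [DecidableEq K] [Fintype K] {k : ℕ}
  {𝓑 : Finset (Finset (OnePoint K))}

lemma five_num {p e k : ℕ} (hp : p.Prime) (h4 : p ^ e % 4 = 1) (hk : 5 < k) (hkodd : Odd k)
    (hkq : k < p ^ e + 1) (h3 : k - 3 ∣ p ^ e - 3) (h4' : k - 4 ∣ p ^ e - 3) :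
    k % 4 = 1 ∧ 17 ≤ k := by
  have hk4 : k % 4 = 1 := by
    obtain ⟨m, hm⟩ := hkodd
    by_contra hcon
    have h5 : 4 ∣ k - 3 := by omega
    have h6 := h5.trans h3
    omega
  refine ⟨hk4, ?_⟩
  by_contra hcon
  have h9 : k = 9 ∨ k = 13 := by omega
  have key : 3 ∣ p ^ e → p = 3 := fun h =>
    ((Nat.prime_dvd_prime_iff_eq Nat.prime_three hp).1
        (Nat.prime_three.dvd_of_dvd_pow h)).symm
  rcases h9 with rfl | rfl
  · have hp3 : p = 3 := key (by omega)
    subst hp3
    rcases Nat.even_or_odd e with ⟨n, rfl⟩ | ⟨n, rfl⟩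
    · have h5 : 3 ^ (n + n) % 5 = 1 ∨ 3 ^ (n + n) % 5 = 4 := by
        rw [← two_mul, pow_mul]
        clear * -
        induction n with
        | zero => left; rfl
        | succ n ih => rw [pow_succ]; omega
      omega
    · have h5 : 3 ^ (2 * n + 1) % 4 = 3 := by
        rw [pow_succ, pow_mul]
        clear * -
        induction n with
        | zero => rfl
        | succ n ih => rw [pow_succ]; omega
      omega
  · have hp3 : p = 3 := key (by omega)
    subst hp3
    have he : 2 ≤ e := by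
      by_contra hcon
      have h5 : e ≤ 1 := by omega
      have := Nat.pow_le_pow_right (n := 3) (by norm_num) h5
      omega
    obtain ⟨m, rfl⟩ : ∃ m, e = m + 2 := ⟨e - 2, by omega⟩
    rw [pow_add] at h4'
    rw [pow_add] at hkq
    omega

/-- strength five -/
theorem five_main (hD : IsDesign 5 k 1 𝓑)
    (hSL : ∀ A : SpecialLinearGroup (Fin 2) K, ∀ B ∈ 𝓑, B.image (slPerm A) ∈ 𝓑)
    (hk : 5 < k) (hkq : k < Fintype.card K + 1) {p e : ℕ} (hp : p.Prime)
    (hq : Fintype.card K = p ^ e) : Fintype.card K % 4 = 3 ∨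
      (Fintype.card K % 4 = 1 ∧ k % 4 = 1 ∧ 17 ≤ k) ∨
      (p = 2 ∧ ∃ m, k = 2 ^ m + 1 ∧ 3 ≤ m ∧ (m - 1) ∣ (e - 1)) := by
  by_cases hF : ringChar K = 2
  · right; right
    have h2 : (2 : K) = 0 := by
      have := (ringChar.spec K 2).2 (by rw [hF])
      exact_mod_cast this
    have hp2 : p = 2 := eq_of_natCast_zero hp hq Nat.prime_two (by exact_mod_cast h2)
    subst hp2
    exact ⟨rfl, five_two hD hSL h2 hk hkq hq⟩
  have h2 : (2 : K) ≠ 0 := Ring.two_ne_zero hF
  have hodd : Fintype.card K % 2 = 1 := FiniteField.odd_card_of_char_ne_two hF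
  by_cases hm1 : IsSquare (-1 : K)
  · right; left
    have hq4 : Fintype.card K % 4 = 1 := by
      rw [FiniteField.isSquare_neg_one_iff] at hm1
      omega
    refine ⟨hq4, ?_⟩
    have hkodd : Odd k := by
      rw [← Nat.not_even_iff_odd]
      exact fun h => five_one_even hD hSL hm1 h2 hk h hkq
    have h3 := five_one_odd hD hSL hm1 h2 hk hkodd hkq
    have h4 := divisibility hD 4 (by norm_num) (by rw [card_line]; omega)
    rw [card_line, show 5 - 4 = 1 by norm_num, Nat.choose_one_right, Nat.choose_one_right] at h4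
    have h5 : Fintype.card K + 1 - 4 = Fintype.card K - 3 := by omega
    rw [h5] at h4
    rw [hq] at h3 h4 hq4 hkq
    exact five_num hp hq4 hk hkodd hkq h3 h4
  · left
    rw [FiniteField.isSquare_neg_one_iff] at hm1
    omega

end Pool.Agent.N86.S46
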