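import Pool.Agent.N86.S46.Main

/-!
# Steiner systems of strength five and six on the projective line which are invariant under
`PGL(2, q)`, `q` odd
-/

set_option autoImplicit false

namespace Pool.Agent.N86.S46

open Finset Matrix Pool.Agent.N86.S6 Pool.Agent.N86.S4

section gl
variable {K : Type*} [Field K] [DecidableEq K]

/-- the permutation of the projective line given by an element of `GL(2, K)` -/
def glPerm (A : GL (Fin 2) K) : Equiv.Perm (OnePoint K) := MulAction.toPerm A

lemma glPerm_mul (A B : GL (Fin 2) K) : glPerm (A * B) = glPerm A * glPerm B := by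
  ext x : 1
  exact mul_smul A B x

lemma glPerm_infty (A : GL (Fin 2) K) :
    glPerm A OnePoint.infty = if A 1 0 = 0 then OnePoint.infty
      else ((A 0 0 / A 1 0 : K) : OnePoint K) := by
  unfold glPerm
  rw [MulAction.toPerm_apply, OnePoint.smul_infty_eq_ite]

lemma glPerm_coe (A : GL (Fin 2) K) (x : K) :
    glPerm A (x : OnePoint K) = if A 1 0 * x + A 1 1 = 0 then OnePoint.infty
      else (((A 0 0 * x + A 0 1) / (A 1 0 * x + A 1 1) : K) : OnePoint K) := by
  unfold glPerm
  rw [MulAction.toPerm_apply, OnePoint.smul_some_eq_ite]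

lemma glPerm_prop {A B : GL (Fin 2) K} {c : K} (hc : c ≠ 0)
    (h : ∀ i j : Fin 2, (A : Matrix (Fin 2) (Fin 2) K) i j =
      c * (B : Matrix (Fin 2) (Fin 2) K) i j) : glPerm A = glPerm B := by
  ext x : 1
  induction x using OnePoint.rec with
  | infty =>
    rw [glPerm_infty, glPerm_infty]
    by_cases h0 : B 1 0 = 0
    · rw [if_pos h0, if_pos (by rw [h, h0, mul_zero])]
    · rw [if_neg h0, if_neg (by rw [h]; exact mul_ne_zero hc h0)]
      congr 1
      rw [h, h, mul_div_mul_left _ _ hc]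
  | coe x =>
    rw [glPerm_coe, glPerm_coe]
    have e1 : A 1 0 * x + A 1 1 = c * (B 1 0 * x + B 1 1) := by rw [h, h]; ring
    have e2 : A 0 0 * x + A 0 1 = c * (B 0 0 * x + B 0 1) := by rw [h, h]; ring
    by_cases h0 : B 1 0 * x + B 1 1 = 0
    · rw [if_pos h0, if_pos (by rw [e1, h0, mul_zero])]
    · rw [if_neg h0, if_neg (by rw [e1]; exact mul_ne_zero hc h0)]
      congr 1
      rw [e1, e2, mul_div_mul_left _ _ hc]

/-- a matrix whose determinant is a square -/
lemma glPerm_square (A : GL (Fin 2) K) (h : IsSquare (A.det : K)) :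
    ∃ S : SpecialLinearGroup (Fin 2) K, glPerm A = slPerm S := by
  obtain ⟨s, hs⟩ := h
  have hdet : (A : Matrix (Fin 2) (Fin 2) K).det = s * s := hs
  have hs0 : s ≠ 0 := by
    rintro rfl
    rw [mul_zero] at hs
    exact (Units.ne_zero A.det) hs
  refine ⟨⟨s⁻¹ • (A : Matrix (Fin 2) (Fin 2) K), ?_⟩, ?_⟩
  · rw [Matrix.det_smul, Fintype.card_fin, hdet]
    field_simp
  · show glPerm A = glPerm _
    refine glPerm_prop hs0 ?_
    intro i j
    show (A : Matrix (Fin 2) (Fin 2) K) i j = s * (s⁻¹ * (A : Matrix (Fin 2) (Fin 2) K) i j)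
    field_simp

/-- a group which contains `PSL(2, K)` and one more element of `PGL(2, K)` contains
`PGL(2, K)` -/
lemma glPerm_mem (G : Subgroup (Equiv.Perm (OnePoint K)))
    (hSL : ∀ S : SpecialLinearGroup (Fin 2) K, slPerm S ∈ G)
    (hp : ∀ a b : K, ¬ IsSquare a → ¬ IsSquare b → IsSquare (a * b))
    (A₀ : GL (Fin 2) K) (hA₀ : glPerm A₀ ∈ G) (hns : ¬ IsSquare (A₀.det : K)) (A : GL (Fin 2) K) :
    glPerm A ∈ G := by
  by_cases hA : IsSquare (A.det : K)
  · obtain ⟨S, hS⟩ := glPerm_square A hA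
    rw [hS]
    exact hSL S
  · have h1 : IsSquare ((A * A₀⁻¹).det : K) := by
      obtain ⟨t, ht⟩ := hp _ _ hA hns
      have h0 : (A₀.det : K) ≠ 0 := Units.ne_zero _
      refine ⟨t / (A₀.det : K), ?_⟩
      rw [map_mul, map_inv, Units.val_mul, Units.val_inv_eq_inv_val]
      field_simp
      linear_combination ht
    obtain ⟨S, hS⟩ := glPerm_square _ h1
    have h2 : glPerm A = slPerm S * glPerm A₀ := by
      rw [← hS, ← glPerm_mul, inv_mul_cancel_right]
    rw [h2]
    exact G.mul_mem (hSL S) hA₀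

/-- `z ↦ c z` and `z ↦ c / z` -/
structure MulInv (G : Subgroup (Equiv.Perm (OnePoint K))) (c : K) : Prop where
  mul : ∃ g ∈ G, g OnePoint.infty = OnePoint.infty ∧
    ∀ z : K, g (z : OnePoint K) = ((c * z : K) : OnePoint K)
  inv : ∃ g ∈ G, g OnePoint.infty = ((0 : K) : OnePoint K) ∧
    g ((0 : K) : OnePoint K) = OnePoint.infty ∧
    ∀ z : K, z ≠ 0 → g (z : OnePoint K) = ((c / z : K) : OnePoint K)

lemma mulInv_of_all (G : Subgroup (Equiv.Perm (OnePoint K)))
    (h : ∀ A : GL (Fin 2) K, glPerm A ∈ G) {c : K} (hc : c ≠ 0) : MulInv G c := by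
  constructor
  · let A : GL (Fin 2) K := Matrix.GeneralLinearGroup.mkOfDetNeZero !![c, 0; 0, 1] (by
      rw [Matrix.det_fin_two_of]; simpa using hc)
    have h00 : A 0 0 = c := rfl
    have h01 : A 0 1 = 0 := rfl
    have h10 : A 1 0 = 0 := rfl
    have h11 : A 1 1 = 1 := rfl
    refine ⟨glPerm A, h A, ?_, fun z => ?_⟩
    · rw [glPerm_infty, if_pos h10]
    · rw [glPerm_coe, h00, h01, h10, h11, zero_mul, zero_add, if_neg one_ne_zero, add_zero,
        div_one]
  · let A : GL (Fin 2) K := Matrix.GeneralLinearGroup.mkOfDetNeZero !![0, c; 1, 0] (by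
      rw [Matrix.det_fin_two_of]; simpa using hc)
    have h00 : A 0 0 = 0 := rfl
    have h01 : A 0 1 = c := rfl
    have h10 : A 1 0 = 1 := rfl
    have h11 : A 1 1 = 0 := rfl
    refine ⟨glPerm A, h A, ?_, ?_, fun z hz => ?_⟩
    · rw [glPerm_infty, h10, h00, if_neg one_ne_zero, zero_div]
    · rw [glPerm_coe, h10, h11, if_pos (by ring)]
    · rw [glPerm_coe, h00, h01, h10, h11, if_neg (by rw [one_mul, add_zero]; exact hz), one_mul,
        add_zero, zero_mul, zero_add]

end gl

section designs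
variable {K : Type*} [Field K] [DecidableEq K] [Fintype K] {k : ℕ}
  {𝓑 : Finset (Finset (OnePoint K))}

/-- if `t` points of the block `B` go to points of the block `B'`, then `B` goes to `B'` -/
lemma image_perm {t : ℕ} (hD : IsDesign t k 1 𝓑) (g : Equiv.Perm (OnePoint K))
    (hg : ∀ B ∈ 𝓑, B.image g ∈ 𝓑) {B B' : Finset (OnePoint K)} (hB : B ∈ 𝓑) (hB' : B' ∈ 𝓑)
    (S : Finset (OnePoint K)) (hS : S.card = t) (hSB : S ⊆ B) (h : ∀ x ∈ S, g x ∈ B') :
    ∀ y ∈ B, g y ∈ B' := by
  have h1 : B.image g = B' := by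
    refine block_unique hD (hg B hB) hB' (S := S.image g) ?_ ?_ ?_
    · rw [Finset.card_image_of_injective _ g.injective, hS]
    · exact Finset.image_subset_image hSB
    · rw [Finset.image_subset_iff]; exact h
  intro y hy
  rw [← h1]
  exact Finset.mem_image_of_mem _ hy

/-- no `S(6, k, q + 1)` is invariant under `PGL(2, q)`, `q` odd -/
theorem six_pgl (hD : IsDesign 6 k 1 𝓑) (G : Subgroup (Equiv.Perm (OnePoint K)))
    (hG : ∀ g ∈ G, ∀ B ∈ 𝓑, B.image g ∈ 𝓑) (hMI : ∀ c : K, c ≠ 0 → MulInv G c)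
    (h2 : (2 : K) ≠ 0) (hk : 6 < k) (hkq : k < Fintype.card K + 1) : False := by
  obtain ⟨ν, hνG, hνi, hνc⟩ := (hMI (-1) (neg_ne_zero.2 one_ne_zero)).mul
  -- invariance of blocks through `sixA x y`
  have hinv : ∀ B ∈ 𝓑, ∀ x y : K, x ≠ 0 → y ≠ 0 → x ≠ y → x ≠ -y → sixA x y ⊆ B →
      ∀ z ∈ core B, -z ∈ core B := by
    intro B hB x y hx hy hxy hxy' hsub z hz
    have h1 := image_perm hD ν (hG ν hνG) hB hB (sixA x y)
      (sixA_card h2 hx hy hxy hxy') hsub (by
        intro w hw
        simp only [sixA, Finset.mem_insert, Finset.mem_singleton] at hw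
        refine hsub ?_
        rcases hw with rfl | rfl | rfl | rfl | rfl | rfl
        · rw [hνi]; simp [sixA]
        · rw [hνc]; simp [sixA]
        · rw [hνc]; simp [sixA]
        · rw [hνc]; simp [sixA]
        · rw [hνc]; simp [sixA]
        · rw [hνc]; simp [sixA]) z (mem_core.1 hz).2
    rw [hνc, neg_one_mul] at h1
    exact mem_core.2 ⟨neg_ne_zero.2 (mem_core.1 hz).1, h1⟩
  have hsubset : ∀ B : Finset (OnePoint K), OnePoint.infty ∈ B → ((0 : K) : OnePoint K) ∈ B →
      (∀ z ∈ core B, -z ∈ core B) → ∀ x ∈ core B, ∀ y ∈ core B, sixA x y ⊆ B := by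
    intro B hi h0 hneg x hx y hy w hw
    simp only [sixA, Finset.mem_insert, Finset.mem_singleton] at hw
    rcases hw with rfl | rfl | rfl | rfl | rfl | rfl
    · exact hi
    · exact h0
    · exact (mem_core.1 hx).2
    · exact (mem_core.1 (hneg x hx)).2
    · exact (mem_core.1 hy).2
    · exact (mem_core.1 (hneg y hy)).2
  have h11 : (1 : K) ≠ -1 := fun e => h2 (by linear_combination e)
  have hWne : ∀ x y : K, x ≠ 0 → y ≠ 0 → y / x ∉ ({1, -1} : Finset K) → x ≠ y ∧ x ≠ -y := by
    intro x y hx hy h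
    simp only [Finset.mem_insert, Finset.mem_singleton, not_or] at h
    refine ⟨fun e => h.1 (by rw [e, div_self hy]), fun e => h.2 ?_⟩
    rw [div_eq_iff hx, e]; ring
  let 𝓓 : Set (Finset K) := {D | ∃ B ∈ 𝓑, OnePoint.infty ∈ B ∧ ((0 : K) : OnePoint K) ∈ B ∧
    (∀ z ∈ core B, -z ∈ core B) ∧ D = core B}
  have hT : Torus ({1, -1} : Finset K) 𝓓 (k - 2) := by
    refine ⟨?_, by simp, ?_, ?_, ?_, ?_, ?_, ?_⟩
    · simp
    · intro x hx y hy
      simp only [Finset.mem_insert, Finset.mem_singleton] at hx hy ⊢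
      rcases hx with rfl | rfl <;> rcases hy with rfl | rfl <;> simp
    · rintro D ⟨B, -, -, -, -, rfl⟩
      exact zero_notMem_core B
    · rintro D ⟨B, hB, hi, h0, -, rfl⟩
      have := card_core hi h0
      rw [hD.1 B hB] at this
      omega
    · rintro D ⟨B, hB, hi, h0, hneg, rfl⟩ w hw x hx
      simp only [Finset.mem_insert, Finset.mem_singleton] at hw
      rcases hw with rfl | rfl
      · rwa [one_mul]
      · rw [neg_one_mul]; exact hneg x hx
    · intro x y hx hy hxy
      obtain ⟨h3, h4⟩ := hWne x y hx hy hxy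
      obtain ⟨B, hB, hS⟩ := block_exists hD (sixA_card h2 hx hy h3 h4)
      refine ⟨core B, ⟨B, hB, hS (by simp [sixA]), hS (by simp [sixA]),
        hinv B hB x y hx hy h3 h4 hS, rfl⟩, ?_, ?_⟩
      · exact mem_core.2 ⟨hx, hS (by simp [sixA])⟩
      · exact mem_core.2 ⟨hy, hS (by simp [sixA])⟩
    · rintro D ⟨B, hB, hi, h0, hneg, rfl⟩ D' ⟨B', hB', hi', h0', hneg', rfl⟩ x y hx hy hx' hy' hxy
      obtain ⟨h3, h4⟩ := hWne x y (mem_core.1 hx).1 (mem_core.1 hy).1 hxy
      have : B = B' := block_unique hD hB hB' (S := sixA x y)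
        (by rw [sixA_card h2 (mem_core.1 hx).1 (mem_core.1 hy).1 h3 h4])
        (hsubset B hi h0 hneg x hx y hy) (hsubset B' hi' h0' hneg' x hx' y hy')
      rw [this]
  have hWc : ({1, -1} : Finset K).card = 2 := Finset.card_pair h11
  obtain ⟨D, ⟨B, hB, hi, h0, -, rfl⟩, hall⟩ := full_one hT (by
    obtain ⟨a, -, ha⟩ : ∃ a ∈ (univ : Finset K), a ∉ ({0, 1, -1} : Finset K) := by
      refine Finset.exists_mem_notMem_of_card_lt_card (lt_of_le_of_lt Finset.card_le_three ?_)
      rw [Finset.card_univ]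
      omega
    rw [Finset.mem_insert, not_or] at ha
    exact ⟨a, ha⟩) (by rw [hWc]; omega) (by
    rintro D ⟨B, hB, hi, h0, hneg, rfl⟩ x hx y hy hxy z hz
    have hx0 := (mem_core.1 hx).1
    have hy0 := (mem_core.1 hy).1
    obtain ⟨h3, h4⟩ := hWne x y hx0 hy0 hxy
    obtain ⟨ι, hιG, hιi, hι0, hιc⟩ := (hMI (x * y) (mul_ne_zero hx0 hy0)).inv
    have hsub := hsubset B hi h0 hneg x hx y hy
    have h1 := image_perm hD ι (hG ι hιG) hB hB (sixA x y)
      (sixA_card h2 hx0 hy0 h3 h4) hsub (by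
        intro w hw
        simp only [sixA, Finset.mem_insert, Finset.mem_singleton] at hw
        refine hsub ?_
        rcases hw with rfl | rfl | rfl | rfl | rfl | rfl
        · rw [hιi]; simp [sixA]
        · rw [hι0]; simp [sixA]
        · rw [hιc _ hx0, show x * y / x = y by field_simp]; simp [sixA]
        · rw [hιc _ (neg_ne_zero.2 hx0), show x * y / -x = -y by field_simp]
          simp [sixA]
        · rw [hιc _ hy0, show x * y / y = x by field_simp]; simp [sixA]
        · rw [hιc _ (neg_ne_zero.2 hy0), show x * y / -y = -x by field_simp]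
          simp [sixA]) z (mem_core.1 hz).2
    rw [hιc _ (mem_core.1 hz).1] at h1
    exact mem_core.2 ⟨div_ne_zero (mul_ne_zero hx0 hy0) (mem_core.1 hz).1, h1⟩)
  have h1 : B = Finset.univ := by
    ext x
    refine ⟨fun _ => Finset.mem_univ _, fun _ => ?_⟩
    induction x using OnePoint.rec with
    | infty => exact hi
    | coe x =>
      by_cases hx : x = 0
      · rw [hx]; exact h0
      · exact (mem_core.1 (hall x hx)).2
  have h3 := hD.1 B hB
  rw [h1, Finset.card_univ, show Fintype.card (OnePoint K) = Fintype.card K + 1 from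
    Fintype.card_option] at h3
  omega

end designs

end Pool.Agent.N86.S46
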