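import Pool.Agent.N86.S46.SixThree

/-!
# The projective line and the quadratic extension by a cube root of unity
-/

set_option autoImplicit false

namespace Pool.Agent.N86.S46

open Finset Matrix Pool.Agent.N86.S6 Pool.Agent.N86.S4

/-- `L` is the field `K(ω)`, with `ω` a primitive cube root of unity outside `K` -/
structure Quad (K L : Type*) [Field K] [Field L] where
  i : K →+* L
  ω : L
  hω : ω ^ 2 + ω + 1 = 0
  re : L → K
  im : L → K
  eq : ∀ u, u = i (re u) + i (im u) * ω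
  ind : ∀ a b : K, i a + i b * ω = 0 → a = 0 ∧ b = 0

variable {K L : Type*} [Field K] [DecidableEq K] [Field L] (Q : Quad K L)

/-- the point of the projective line with homogeneous coordinates `a, b` -/
def pt (a b : K) : OnePoint K := if b = 0 then OnePoint.infty else ((a / b : K) : OnePoint K)

lemma pt_smul {c a b : K} (hc : c ≠ 0) : pt (c * a) (c * b) = pt a b := by
  unfold pt
  by_cases hb : b = 0
  · rw [if_pos hb, if_pos (by rw [hb, mul_zero])]
  · rw [if_neg hb, if_neg (mul_ne_zero hc hb)]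
    congr 1
    field_simp

lemma pt_mob (P Q R T s : K) (h : P * T - Q * R = s ^ 2) (hs : s ≠ 0) (a b : K)
    (hab : ¬ (a = 0 ∧ b = 0)) :
    slPerm (mobM P Q R T s h hs) (pt a b) = pt (P * a + Q * b) (R * a + T * b) := by
  unfold pt
  by_cases hb : b = 0
  · have ha : a ≠ 0 := fun e => hab ⟨e, hb⟩
    rw [if_pos hb, hb]
    simp only [mul_zero, add_zero]
    by_cases hR : R = 0
    · rw [mob_infty' _ _ _ _ _ _ _ hR, if_pos (by rw [hR, zero_mul])]
    · rw [mob_infty _ _ _ _ _ _ _ hR, if_neg (mul_ne_zero hR ha)]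
      congr 1
      field_simp
  · rw [if_neg hb]
    have e : R * a + T * b = b * (R * (a / b) + T) := by field_simp
    by_cases hx : R * (a / b) + T = 0
    · rw [mob_coe' _ _ _ _ _ _ _ _ hx, if_pos (by rw [e, hx, mul_zero])]
    · rw [mob_coe _ _ _ _ _ _ _ _ hx, if_neg (by rw [e]; exact mul_ne_zero hb hx)]
      congr 1
      rw [div_eq_div_iff hx (by rw [e]; exact mul_ne_zero hb hx)]
      field_simp

namespace Quad

/-- the point of the projective line given by an element of `L` -/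
def phi (u : L) : OnePoint K := pt (Q.re u) (Q.im u)

/-- the norm -/
def norm (u : L) : K := Q.re u ^ 2 - Q.re u * Q.im u + Q.im u ^ 2

omit [DecidableEq K] in
lemma coords {a b : K} {u : L} (h : u = Q.i a + Q.i b * Q.ω) : Q.re u = a ∧ Q.im u = b := by
  have h1 := Q.eq u
  have h2 := Q.ind (Q.re u - a) (Q.im u - b) (by
    rw [map_sub, map_sub]
    linear_combination h - h1)
  exact ⟨sub_eq_zero.1 h2.1, sub_eq_zero.1 h2.2⟩

omit [DecidableEq K] in
lemma re_im_ne {u : L} (hu : u ≠ 0) : ¬ (Q.re u = 0 ∧ Q.im u = 0) := by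
  rintro ⟨h1, h2⟩
  refine hu ?_
  rw [Q.eq u, h1, h2, map_zero, zero_mul, add_zero]

omit [DecidableEq K] in
lemma re_mul (u v : L) : Q.re (u * v) = Q.re u * Q.re v - Q.im u * Q.im v ∧
    Q.im (u * v) = Q.re u * Q.im v + Q.im u * Q.re v - Q.im u * Q.im v := by
  refine Q.coords ?_
  have h1 := Q.eq u
  have h2 := Q.eq v
  have h3 : u * v = (Q.i (Q.re u) + Q.i (Q.im u) * Q.ω) * (Q.i (Q.re v) + Q.i (Q.im v) * Q.ω) := by
    rw [← h1, ← h2]
  rw [h3]
  simp only [map_sub, map_add, map_mul]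
  linear_combination (Q.i (Q.im u) * Q.i (Q.im v)) * Q.hω

omit [DecidableEq K] in
lemma norm_mul (u v : L) : Q.norm (u * v) = Q.norm u * Q.norm v := by
  unfold norm
  obtain ⟨h1, h2⟩ := Q.re_mul u v
  rw [h1, h2]
  ring

omit [DecidableEq K] in
lemma norm_one : Q.norm 1 = 1 := by
  obtain ⟨h1, h2⟩ := Q.coords (a := 1) (b := 0) (u := 1) (by simp)
  unfold norm
  rw [h1, h2]; ring

omit [DecidableEq K] in
lemma norm_ne {u : L} (hu : u ≠ 0) : Q.norm u ≠ 0 := by
  intro h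
  have h1 := Q.norm_mul u u⁻¹
  rw [mul_inv_cancel₀ hu, h, zero_mul, Q.norm_one] at h1
  exact one_ne_zero h1

omit [DecidableEq K] in
lemma norm_i (c : K) : Q.norm (Q.i c) = c ^ 2 := by
  obtain ⟨h1, h2⟩ := Q.coords (a := c) (b := 0) (u := Q.i c) (by simp)
  unfold norm
  rw [h1, h2]; ring

omit [DecidableEq K] in
lemma norm_om : Q.norm Q.ω = 1 := by
  obtain ⟨h1, h2⟩ := Q.coords (a := 0) (b := 1) (u := Q.ω) (by simp)
  unfold norm
  rw [h1, h2]; ring

omit [DecidableEq K] in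
lemma om_ne : Q.ω ≠ 0 := by
  intro h
  have := Q.hω
  rw [h] at this
  exact one_ne_zero (α := L) (by linear_combination this)

omit [DecidableEq K] in
lemma om_cube : Q.ω ^ 3 = 1 := by linear_combination (Q.ω - 1) * Q.hω

lemma phi_smul {c : K} (hc : c ≠ 0) (u : L) : Q.phi (Q.i c * u) = Q.phi u := by
  unfold phi
  obtain ⟨h1, h2⟩ := Q.coords (a := c * Q.re u) (b := c * Q.im u) (u := Q.i c * u) (by
    rw [map_mul, map_mul]
    conv_lhs => rw [Q.eq u]
    ring)
  rw [h1, h2, pt_smul hc]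

/-- the standard representative -/
noncomputable def rep (p : OnePoint K) : L :=
  OnePoint.elim p (1 : L) (fun x => Q.i x + Q.ω)

omit [DecidableEq K] in
@[simp] lemma rep_infty : Q.rep (OnePoint.infty : OnePoint K) = 1 := rfl

omit [DecidableEq K] in
@[simp] lemma rep_coe (x : K) : Q.rep (x : OnePoint K) = Q.i x + Q.ω := rfl

omit [DecidableEq K] in
lemma rep_ne (p : OnePoint K) : Q.rep p ≠ 0 := by
  induction p using OnePoint.rec with
  | infty => rw [rep_infty]; exact one_ne_zero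
  | coe x =>
    rw [rep_coe]
    intro h
    have := Q.ind x 1 (by rw [map_one, one_mul]; exact h)
    exact one_ne_zero this.2

lemma phi_rep (p : OnePoint K) : Q.phi (Q.rep p) = p := by
  unfold phi
  induction p using OnePoint.rec with
  | infty =>
    obtain ⟨h1, h2⟩ := Q.coords (a := 1) (b := 0) (u := (1 : L)) (by simp)
    rw [rep_infty, h1, h2]
    unfold pt
    rw [if_pos rfl]
  | coe x =>
    obtain ⟨h1, h2⟩ := Q.coords (a := x) (b := 1) (u := Q.i x + Q.ω) (by simp)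
    rw [rep_coe, h1, h2]
    unfold pt
    rw [if_neg one_ne_zero, div_one]

lemma eq_rep {u : L} (hu : u ≠ 0) : ∃ c : K, c ≠ 0 ∧ u = Q.i c * Q.rep (Q.phi u) := by
  unfold phi pt
  by_cases hb : Q.im u = 0
  · refine ⟨Q.re u, fun e => Q.re_im_ne hu ⟨e, hb⟩, ?_⟩
    rw [if_pos hb, rep_infty, mul_one]
    conv_lhs => rw [Q.eq u, hb]
    rw [map_zero, zero_mul, add_zero]
  · refine ⟨Q.im u, hb, ?_⟩
    rw [if_neg hb, rep_coe]
    conv_lhs => rw [Q.eq u]
    have : Q.i (Q.re u) = Q.i (Q.im u) * Q.i (Q.re u / Q.im u) := by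
      rw [← map_mul, mul_div_cancel₀ _ hb]
    rw [this]
    ring

lemma phi_eq {u v : L} (hu : u ≠ 0) (hv : v ≠ 0) (h : Q.phi u = Q.phi v) :
    ∃ c : K, c ≠ 0 ∧ v = Q.i c * u := by
  obtain ⟨a, ha, hua⟩ := Q.eq_rep hu
  obtain ⟨b, hb, hvb⟩ := Q.eq_rep hv
  refine ⟨b / a, div_ne_zero hb ha, ?_⟩
  rw [hvb, ← h]
  conv_rhs => rw [hua]
  rw [← mul_assoc, ← map_mul, div_mul_cancel₀ _ ha]

/-- multiplication by `ω` -/
lemma phi_om {u : L} (hu : u ≠ 0) (h : (0 : K) * (-1) - (-1) * 1 = 1 ^ 2) :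
    slPerm (mobM 0 (-1) 1 (-1) 1 h one_ne_zero) (Q.phi u) = Q.phi (Q.ω * u) := by
  unfold phi
  rw [pt_mob _ _ _ _ _ _ _ _ _ (Q.re_im_ne hu)]
  obtain ⟨h1, h2⟩ := Q.re_mul Q.ω u
  obtain ⟨h3, h4⟩ := Q.coords (a := 0) (b := 1) (u := Q.ω) (by simp)
  rw [h1, h2, h3, h4]
  congr 1 <;> ring

/-- the reflection `u ↦ c / u` -/
lemma phi_refl {c u : L} (hc : c ≠ 0) (hu : u ≠ 0) (s : K) (hs : s ≠ 0)
    (h : Q.re c * (-Q.re c) - (Q.im c - Q.re c) * Q.im c = s ^ 2) :
    slPerm (mobM (Q.re c) (Q.im c - Q.re c) (Q.im c) (-Q.re c) s h hs) (Q.phi u) =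
      Q.phi (c / u) := by
  have h0 : Q.phi (c / u) = Q.phi (Q.i (Q.norm u) * (c / u)) :=
    (Q.phi_smul (Q.norm_ne hu) _).symm
  rw [h0]
  unfold phi
  rw [pt_mob _ _ _ _ _ _ _ _ _ (Q.re_im_ne hu)]
  obtain ⟨h1, h2⟩ := Q.coords (a := Q.re c * Q.re u + (Q.im c - Q.re c) * Q.im u)
    (b := Q.im c * Q.re u + -Q.re c * Q.im u) (u := Q.i (Q.norm u) * (c / u)) (by
    have e1 := Q.eq u
    have e2 := Q.eq c
    have e3 : Q.i (Q.norm u) = u * (Q.i (Q.re u - Q.im u) - Q.i (Q.im u) * Q.ω) := by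
      unfold norm
      simp only [map_add, map_sub, map_mul, map_pow]
      linear_combination (Q.i (Q.im u)) ^ 2 * Q.hω -
        (Q.i (Q.re u) - Q.i (Q.im u) - Q.i (Q.im u) * Q.ω) * e1
    have e4 : Q.i (Q.norm u) * (c / u) = c * (Q.i (Q.re u - Q.im u) - Q.i (Q.im u) * Q.ω) := by
      rw [e3]
      field_simp
    rw [e4]
    conv_lhs => rw [e2]
    simp only [map_add, map_sub, map_mul, map_neg]
    linear_combination -(Q.i (Q.im c) * Q.i (Q.im u)) * Q.hω)
  rw [h1, h2]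

section fin
variable [Fintype K] [Fintype L] [DecidableEq L]

/-- the elements of `L` above a set of points -/
noncomputable def cone (B : Finset (OnePoint K)) : Finset L := Finset.univ.filter (fun u => u ≠ 0 ∧ Q.phi u ∈ B)

lemma mem_cone {B : Finset (OnePoint K)} {u : L} : u ∈ Q.cone B ↔ u ≠ 0 ∧ Q.phi u ∈ B := by
  unfold cone
  rw [Finset.mem_filter]
  exact ⟨fun h => h.2, fun h => ⟨Finset.mem_univ _, h⟩⟩

lemma card_cone (B : Finset (OnePoint K)) :
    (Q.cone B).card = (Fintype.card K - 1) * B.card := by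
  have h1 : Q.cone B = ((univ.erase (0 : K)) ×ˢ B).image (fun p => Q.i p.1 * Q.rep p.2) := by
    ext u
    rw [Q.mem_cone, Finset.mem_image]
    constructor
    · rintro ⟨hu, hB⟩
      obtain ⟨c, hc, h⟩ := Q.eq_rep hu
      refine ⟨(c, Q.phi u), ?_, h.symm⟩
      rw [Finset.mem_product]
      exact ⟨Finset.mem_erase.2 ⟨hc, Finset.mem_univ _⟩, hB⟩
    · rintro ⟨⟨c, p⟩, hp, rfl⟩
      rw [Finset.mem_product] at hp
      have hc : c ≠ 0 := (Finset.mem_erase.1 hp.1).1
      refine ⟨mul_ne_zero ?_ (Q.rep_ne p), ?_⟩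
      · exact (map_ne_zero Q.i).2 hc
      · show Q.phi (Q.i c * Q.rep p) ∈ B
        rw [Q.phi_smul hc, Q.phi_rep]
        exact hp.2
  rw [h1, Finset.card_image_of_injOn, Finset.card_product, Finset.card_erase_of_mem
    (Finset.mem_univ _), Finset.card_univ]
  rintro ⟨c, p⟩ hp ⟨c', p'⟩ hp' h
  rw [Finset.mem_coe, Finset.mem_product] at hp hp'
  have hc : c ≠ 0 := (Finset.mem_erase.1 hp.1).1
  have hc' : c' ≠ 0 := (Finset.mem_erase.1 hp'.1).1
  have h : Q.i c * Q.rep p = Q.i c' * Q.rep p' := h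
  have h2 : p = p' := by
    have e := congrArg Q.phi h
    rwa [Q.phi_smul hc, Q.phi_smul hc', Q.phi_rep, Q.phi_rep] at e
  rw [h2] at h
  have h3 := mul_right_cancel₀ (Q.rep_ne p') h
  rw [Q.i.injective h3, h2]

include Q in
lemma card_L : Fintype.card L = Fintype.card K ^ 2 := by
  rw [sq, ← Fintype.card_prod]
  symm
  refine Fintype.card_of_bijective (f := fun p : K × K => Q.i p.1 + Q.i p.2 * Q.ω) ⟨?_, ?_⟩
  · rintro ⟨a, b⟩ ⟨a', b'⟩ h
    have h : Q.i a + Q.i b * Q.ω = Q.i a' + Q.i b' * Q.ω := h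
    obtain ⟨h1, h2⟩ := Q.coords (a := a) (b := b) rfl
    obtain ⟨h3, h4⟩ := Q.coords h
    exact Prod.ext (h1.symm.trans h3) (h2.symm.trans h4)
  · intro u
    exact ⟨(Q.re u, Q.im u), (Q.eq u).symm⟩

end fin

end Quad

end Pool.Agent.N86.S46
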