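import Pool.Agent.N86.S46.SixTwo
import Pool.Agent.N86.S6.Main
import Pool.Agent.N86.S4.Main

/-!
# Steiner systems `S(6, k, q + 1)` on the projective line which are invariant under `PSL(2, q)`
-/

set_option autoImplicit false

namespace Pool.Agent.N86.S46

open Finset Matrix Polynomial Pool.Agent.N86.S6 Pool.Agent.N86.S4

universe u

section construction
variable {K : Type u} [Field K]

lemma irreducible_om (hno : ∀ x : K, x ^ 2 + x + 1 ≠ 0) :
    Irreducible (X ^ 2 + X + 1 : K[X]) := by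
  have hdeg : (X ^ 2 + X + 1 : K[X]).natDegree = 2 := by compute_degree!
  refine irreducible_of_degree_le_three_of_not_isRoot ?_ ?_
  · rw [hdeg, Finset.mem_Icc]; norm_num
  · intro x hx
    refine hno x ?_
    simpa [IsRoot.def] using hx

/-- the field `K(ω)` -/
lemma exists_quad [Fintype K] (hno : ∀ x : K, x ^ 2 + x + 1 ≠ 0) :
    ∃ (L : Type u) (_ : Field L) (_ : Fintype L), Nonempty (Quad K L) := by
  classical
  have hirr := irreducible_om hno
  have : Fact (Irreducible (X ^ 2 + X + 1 : K[X])) := ⟨hirr⟩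
  let L := AdjoinRoot (X ^ 2 + X + 1 : K[X])
  have hdeg : (X ^ 2 + X + 1 : K[X]).natDegree = 2 := by compute_degree!
  have hmonic : (X ^ 2 + X + 1 : K[X]).Monic := by monicity!
  let i : K →+* L := AdjoinRoot.of (X ^ 2 + X + 1 : K[X])
  let ω : L := AdjoinRoot.root (X ^ 2 + X + 1 : K[X])
  have hω : ω ^ 2 + ω + 1 = 0 := by
    have h := AdjoinRoot.eval₂_root (X ^ 2 + X + 1 : K[X])
    simpa [eval₂_add, eval₂_pow] using h
  have hspan : ∀ u : L, ∃ a b : K, u = i a + i b * ω := by
    intro u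
    obtain ⟨g, rfl⟩ := AdjoinRoot.mk_surjective u
    have h1 : AdjoinRoot.mk (X ^ 2 + X + 1 : K[X]) g =
        AdjoinRoot.mk (X ^ 2 + X + 1 : K[X]) (g %ₘ (X ^ 2 + X + 1)) := by
      rw [AdjoinRoot.mk_eq_mk]
      exact ⟨g /ₘ (X ^ 2 + X + 1), by
        have := modByMonic_add_div g (X ^ 2 + X + 1 : K[X])
        linear_combination -this⟩
    have h2 : (g %ₘ (X ^ 2 + X + 1 : K[X])).natDegree < 2 := by
      have h4 : (X ^ 2 + X + 1 : K[X]) ≠ 1 := by
        intro h
        have := hdeg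
        rw [h, natDegree_one] at this
        exact absurd this (by norm_num)
      have h5 := natDegree_modByMonic_lt g hmonic h4
      rwa [hdeg] at h5
    have h6 : (g %ₘ (X ^ 2 + X + 1 : K[X])).natDegree ≤ 1 := by omega
    refine ⟨(g %ₘ (X ^ 2 + X + 1)).coeff 0, (g %ₘ (X ^ 2 + X + 1)).coeff 1, ?_⟩
    rw [h1]
    have h3 : (g %ₘ (X ^ 2 + X + 1 : K[X])) = C ((g %ₘ (X ^ 2 + X + 1)).coeff 0) +
        C ((g %ₘ (X ^ 2 + X + 1)).coeff 1) * X := by
      have h7 := eq_X_add_C_of_natDegree_le_one h6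
      rwa [add_comm (C _ * X)] at h7
    conv_lhs => rw [h3]
    rw [map_add, map_mul, AdjoinRoot.mk_C, AdjoinRoot.mk_C, AdjoinRoot.mk_X]
  have hind : ∀ a b : K, i a + i b * ω = 0 → a = 0 ∧ b = 0 := by
    intro a b h
    have h1 : AdjoinRoot.mk (X ^ 2 + X + 1 : K[X]) (C a + C b * X) = 0 := by
      rw [map_add, map_mul, AdjoinRoot.mk_C, AdjoinRoot.mk_C, AdjoinRoot.mk_X]
      exact h
    rw [AdjoinRoot.mk_eq_zero] at h1
    have h2 : C a + C b * X = 0 := by
      by_contra hne
      have h3 := natDegree_le_of_dvd h1 hne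
      rw [hdeg] at h3
      have h4 : (C a + C b * X : K[X]).natDegree ≤ 1 := by compute_degree
      omega
    have h3 := congrArg (fun g => coeff g 0) h2
    have h4 := congrArg (fun g => coeff g 1) h2
    simp only [coeff_add, coeff_C_zero, coeff_C_mul, coeff_X_zero, mul_zero, add_zero,
      coeff_zero] at h3
    simp only [coeff_add, coeff_C_mul, coeff_X_one, mul_one, coeff_zero,
      coeff_C_succ, zero_add] at h4
    exact ⟨h3, h4⟩
  choose re im heq using hspan
  have hfin : Fintype L := Fintype.ofSurjective (fun p : K × K => i p.1 + i p.2 * ω) (fun u =>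
    ⟨(re u, im u), (heq u).symm⟩)
  exact ⟨L, inferInstance, hfin, ⟨⟨i, ω, hω, re, im, heq, hind⟩⟩⟩

/-- a norm which is not a square -/
lemma exists_norm [Fintype K] {L : Type*} [Field L] (Q : Quad K L) (h3 : (3 : K) ≠ 0)
    (h2 : (2 : K) ≠ 0) (hodd : Fintype.card K % 2 = 1) (hm1 : ¬ IsSquare (-1 : K)) :
    ∃ u : L, u ≠ 0 ∧ ¬ IsSquare (Q.norm u) := by
  have hf : degree (X ^ 2 : K[X]) = 2 := degree_X_pow 2
  have hg : degree (C 3 * X ^ 2 + C 4 : K[X]) = 2 := by
    compute_degree!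
  obtain ⟨a, b, hab⟩ := FiniteField.exists_root_sum_quadratic hf hg hodd
  simp only [eval_pow, eval_X, eval_add, eval_mul, eval_C] at hab
  have hn : Q.norm (Q.i ((a + b) / 2) + Q.i b * Q.ω) = -1 := by
    obtain ⟨h4, h5⟩ := Q.coords (a := (a + b) / 2) (b := b)
      (u := Q.i ((a + b) / 2) + Q.i b * Q.ω) rfl
    unfold Quad.norm
    rw [h4, h5]
    field_simp
    linear_combination hab
  refine ⟨_, ?_, by rw [hn]; exact hm1⟩
  intro h
  rw [h] at hn
  have h6 : Q.norm (0 : L) = 0 := by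
    obtain ⟨h4, h5⟩ := Q.coords (a := 0) (b := 0) (u := (0 : L)) (by simp)
    unfold Quad.norm
    rw [h4, h5]; ring
  rw [h6] at hn
  exact (neg_ne_zero.2 (one_ne_zero (α := K))) hn.symm

end construction

section main
variable {K : Type*} [Field K] [DecidableEq K] [Fintype K] {k : ℕ}
  {𝓑 : Finset (Finset (OnePoint K))}

/-- all cases except characteristic three and `q = 1 (mod 4)` -/
theorem six_not_three (hD : IsDesign 6 k 1 𝓑)
    (hSL : ∀ A : SpecialLinearGroup (Fin 2) K, ∀ B ∈ 𝓑, B.image (slPerm A) ∈ 𝓑)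
    (h3 : (3 : K) ≠ 0)
    (hcase : (∀ x : K, IsSquare x) ∨ ((∀ a b : K, ¬ IsSquare a → ¬ IsSquare b → IsSquare (a * b)) ∧
      ¬ IsSquare (-1 : K) ∧ (2 : K) ≠ 0 ∧ Fintype.card K % 2 = 1))
    (hk : 12 ≤ k) (hkq : k < Fintype.card K + 1) : False := by
  by_cases hroot : ∃ w : K, w ^ 2 + w + 1 = 0
  · obtain ⟨w, hw⟩ := hroot
    have hw1 : w ≠ 1 := by
      rintro rfl
      exact h3 (by linear_combination hw)
    have h4 := six_three hw hw1 hD hSL (by
      rcases hcase with h | h
      · exact Or.inl h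
      · exact Or.inr ⟨h.1, h.2.1⟩) (by omega) hkq
    have h5 := cameron hD (by omega) (by
      rw [show Fintype.card (OnePoint K) = Fintype.card K + 1 from Fintype.card_option]; omega)
    rw [show Fintype.card (OnePoint K) = Fintype.card K + 1 from Fintype.card_option] at h5
    obtain ⟨m, rfl⟩ : ∃ m, k = m + 12 := ⟨k - 12, by omega⟩
    rw [show m + 12 - 4 = m + 8 by omega, show m + 12 - 5 = m + 7 by omega] at h5
    nlinarith
  · push Not at hroot
    obtain ⟨L, _, _, ⟨Q⟩⟩ := exists_quad hroot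
    classical
    have := Q.six_two hD hSL (by
      rcases hcase with h | ⟨h, h', h2, hodd⟩
      · exact Or.inl h
      · exact Or.inr ⟨h, h', exists_norm Q h3 h2 hodd h'⟩) (by omega) (by omega)
    omega

lemma three_num (k e : ℕ) (he : Odd e) (hk : 12 ≤ k) (hk' : k < 16)
    (hdiv : k - 5 ∣ 3 ^ e + 1 - 5) (hq : 12 ≤ 3 ^ e) : False := by
  obtain ⟨n, rfl⟩ := he
  have h1 : 3 ^ (2 * n + 1) = 3 * 9 ^ n := by rw [pow_succ, pow_mul]; norm_num; ring
  rw [h1] at hdiv hq
  have h7 : 9 ^ n % 7 = 1 ∨ 9 ^ n % 7 = 2 ∨ 9 ^ n % 7 = 4 := by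
    clear * -
    induction n with
    | zero => left; rfl
    | succ n ih => rw [pow_succ]; omega
  have h8 : 9 ^ n % 8 = 1 := by
    clear * -
    induction n with
    | zero => rfl
    | succ n ih => rw [pow_succ]; omega
  have hk4 : k = 12 ∨ k = 13 ∨ k = 14 ∨ k = 15 := by omega
  rcases hk4 with rfl | rfl | rfl | rfl
  · norm_num at hdiv; omega
  · norm_num at hdiv; omega
  · norm_num at hdiv; omega
  · norm_num at hdiv; omega

/-- **Steiner systems `S(6, k, q + 1)` on the projective line, invariant under `PSL(2, q)`** -/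
theorem six_main (hD : IsDesign 6 k 1 𝓑)
    (hSL : ∀ A : SpecialLinearGroup (Fin 2) K, ∀ B ∈ 𝓑, B.image (slPerm A) ∈ 𝓑)
    (hk : 6 < k) (hkq : k < Fintype.card K + 1) {p e : ℕ} (hp : p.Prime)
    (hq : Fintype.card K = p ^ e) : (p = 3 ∧ Odd e ∧ 16 ≤ k) ∨ (p = 7 ∧ Odd e ∧ k = 8) := by
  rcases small_blocks hD hSL hk (by omega) hp hq with h12 | ⟨h1, h2, h3⟩
  swap
  · exact Or.inr ⟨h2, h3, h1⟩
  by_cases hF : ringChar K = 2
  · exfalso
    have h3 : (3 : K) ≠ 0 := by
      have h2 : (2 : K) = 0 := by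
        have := (ringChar.spec K 2).2 (by rw [hF])
        exact_mod_cast this
      intro h
      exact one_ne_zero (α := K) (by linear_combination h - h2)
    exact six_not_three hD hSL h3 (Or.inl fun x => FiniteField.isSquare_of_char_two hF x) h12 hkq
  have h2 : (2 : K) ≠ 0 := Ring.two_ne_zero hF
  have hns : ∃ a : K, ¬ IsSquare a := FiniteField.exists_nonsquare hF
  have hmul : ∀ a b : K, ¬ IsSquare a → ¬ IsSquare b → IsSquare (a * b) := by
    intro a b ha hb
    have e1 : quadraticChar K a = -1 := quadraticChar_neg_one_iff_not_isSquare.2 ha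
    have e2 : quadraticChar K b = -1 := quadraticChar_neg_one_iff_not_isSquare.2 hb
    have ha0 : a ≠ 0 := fun e => ha (by rw [e]; exact ⟨0, by ring⟩)
    have hb0 : b ≠ 0 := fun e => hb (by rw [e]; exact ⟨0, by ring⟩)
    refine (quadraticChar_one_iff_isSquare (mul_ne_zero ha0 hb0)).1 ?_
    rw [map_mul, e1, e2]
    norm_num
  have hodd : Fintype.card K % 2 = 1 := FiniteField.odd_card_of_char_ne_two hF
  by_cases hm1 : IsSquare (-1 : K)
  · exfalso
    have := six_one hD hSL hmul hns hm1 h2 h12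
    omega
  by_cases h3 : (3 : K) = 0
  · left
    have hp3 : p = 3 := eq_of_natCast_zero hp hq Nat.prime_three (by exact_mod_cast h3)
    subst hp3
    have he : Odd e := by
      rw [← Nat.not_even_iff_odd]
      rintro ⟨n, rfl⟩
      refine hm1 ?_
      rw [FiniteField.isSquare_neg_one_iff, hq]
      have h8 : 3 ^ (n + n) % 4 = 1 := by
        rw [← two_mul, pow_mul, Nat.pow_mod]
        norm_num
      omega
    refine ⟨rfl, he, ?_⟩
    by_contra hcon
    have h1 := divisibility hD 5 (by norm_num) (by rw [card_line]; omega)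
    rw [card_line, hq, Nat.choose_one_right, Nat.choose_one_right] at h1
    exact three_num k e he h12 (by omega) h1 (by rw [← hq]; omega)
  · exact (six_not_three hD hSL h3 (Or.inr ⟨hmul, hm1, h2, hodd⟩) h12 hkq).elim

end main

end Pool.Agent.N86.S46
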