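import Pool.Agent.N86.S46.Torus
import Pool.Agent.N86.S4.Cases

/-!
# Steiner systems `S(6, k, q + 1)` on the projective line: `q = 1 (mod 4)`, and `q = 1 (mod 3)`
-/

set_option autoImplicit false

namespace Pool.Agent.N86.S46

open Finset Matrix Pool.Agent.N86.S6 Pool.Agent.N86.S4

variable {K : Type*} [Field K] [DecidableEq K] [Fintype K] {k : ℕ}
  {𝓑 : Finset (Finset (OnePoint K))}

/-- the class function given by the squares -/
lemma isClass_square (W : Finset K) (hW : ∀ w ∈ W, IsSquare w)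
    (hp : ∀ a b : K, ¬ IsSquare a → ¬ IsSquare b → IsSquare (a * b))
    (hns : ∃ a : K, ¬ IsSquare a) : IsClass W (fun x : K => IsSquare x) where
  one := IsSquare.one
  mul := fun _ _ _ _ hx hy => hx.mul hy
  mul' := fun _ _ _ _ hx hy => hp _ _ hx hy
  mul'' := fun _ _ hx0 _ hx hy => not_square_mul hx hx0 hy
  W := hW
  ex := by
    obtain ⟨a, ha⟩ := hns
    exact ⟨a, fun e => ha (by rw [e]; exact ⟨0, by ring⟩), ha⟩

omit [Fintype K] in
lemma mobM_mul (m s : K) (hdet : m * 1 - 0 * 0 = s ^ 2) (hs0 : s ≠ 0) (z : K) :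
    slPerm (mobM m 0 0 1 s hdet hs0) (z : OnePoint K) = ((m * z : K) : OnePoint K) := by
  rw [mob_coe _ _ _ _ _ _ _ z (by rw [zero_mul, zero_add]; exact one_ne_zero)]
  congr 1
  rw [zero_mul, zero_add, add_zero, div_one]

omit [Fintype K] in
lemma mobM_inv (c s : K) (hdet : (0 : K) * 0 - c * 1 = s ^ 2) (hs0 : s ≠ 0) (z : K) (hz : z ≠ 0) :
    slPerm (mobM 0 c 1 0 s hdet hs0) (z : OnePoint K) = ((c / z : K) : OnePoint K) := by
  rw [mob_coe _ _ _ _ _ _ _ z (by rw [add_zero, one_mul]; exact hz)]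
  congr 1
  rw [zero_mul, zero_add, one_mul, add_zero]

/-- the six points `∞, 0, x, -x, y, -y` -/
noncomputable def sixA (x y : K) : Finset (OnePoint K) :=
  {OnePoint.infty, ((0 : K) : OnePoint K), (x : OnePoint K), ((-x : K) : OnePoint K),
    (y : OnePoint K), ((-y : K) : OnePoint K)}

lemma two_neg {x : K} (h2 : (2 : K) ≠ 0) (hx : x ≠ 0) : x ≠ -x := fun e =>
  (mul_ne_zero h2 hx) (by linear_combination e)

omit [Fintype K] in
lemma sixA_card (h2 : (2 : K) ≠ 0) {x y : K} (hx : x ≠ 0) (hy : y ≠ 0) (hxy : x ≠ y)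
    (hxy' : x ≠ -y) : (sixA x y).card = 6 := by
  have hxx : x ≠ -x := fun e => (mul_ne_zero h2 hx) (by linear_combination e)
  have hyy : y ≠ -y := fun e => (mul_ne_zero h2 hy) (by linear_combination e)
  unfold sixA
  rw [Finset.card_insert_of_notMem, Finset.card_insert_of_notMem, Finset.card_insert_of_notMem,
    Finset.card_insert_of_notMem, Finset.card_insert_of_notMem, Finset.card_singleton]
  · rw [Finset.mem_singleton, OnePoint.coe_eq_coe]; exact hyy
  · simp only [Finset.mem_insert, Finset.mem_singleton, OnePoint.coe_eq_coe, not_or]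
    exact ⟨fun e => hxy' (by linear_combination -e), fun e => hxy (by linear_combination -e)⟩
  · simp only [Finset.mem_insert, Finset.mem_singleton, OnePoint.coe_eq_coe, not_or]
    exact ⟨hxx, hxy, hxy'⟩
  · simp only [Finset.mem_insert, Finset.mem_singleton, OnePoint.coe_eq_coe, not_or]
    exact ⟨hx.symm, (neg_ne_zero.2 hx).symm, hy.symm, (neg_ne_zero.2 hy).symm⟩
  · simp

/-- `q = 1 (mod 4)` -/
theorem six_one (hD : IsDesign 6 k 1 𝓑)
    (hSL : ∀ A : SpecialLinearGroup (Fin 2) K, ∀ B ∈ 𝓑, B.image (slPerm A) ∈ 𝓑)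
    (hp : ∀ a b : K, ¬ IsSquare a → ¬ IsSquare b → IsSquare (a * b))
    (hns : ∃ a : K, ¬ IsSquare a)
    (hm1 : IsSquare (-1 : K)) (h2 : (2 : K) ≠ 0) (hk : 12 ≤ k) : k = Fintype.card K + 1 := by
  obtain ⟨s, hs⟩ := hm1
  have hs0 : s ≠ 0 := by
    rintro rfl
    exact (neg_ne_zero.2 (one_ne_zero (α := K))) (by rw [hs, zero_mul])
  have hdet : (-1 : K) * 1 - 0 * 0 = s ^ 2 := by linear_combination hs
  -- invariance of blocks through `sixA x y`
  have hinv : ∀ B ∈ 𝓑, ∀ x y : K, x ≠ 0 → y ≠ 0 → x ≠ y → x ≠ -y → sixA x y ⊆ B →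
      ∀ z ∈ core B, -z ∈ core B := by
    intro B hB x y hx hy hxy hxy' hsub z hz
    have h1 := image_block hD hSL (mobM (-1) 0 0 1 s hdet hs0) hB hB (sixA x y)
      (sixA_card h2 hx hy hxy hxy') hsub (by
        intro w hw
        simp only [sixA, Finset.mem_insert, Finset.mem_singleton] at hw
        refine hsub ?_
        rcases hw with rfl | rfl | rfl | rfl | rfl | rfl
        · rw [mob_infty' _ _ _ _ _ _ _ rfl]; simp [sixA]
        · rw [mobM_mul]; simp [sixA]
        · rw [mobM_mul]; simp [sixA]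
        · rw [mobM_mul]; simp [sixA]
        · rw [mobM_mul]; simp [sixA]
        · rw [mobM_mul]; simp [sixA]) z (mem_core.1 hz).2
    rw [mobM_mul, neg_one_mul] at h1
    exact mem_core.2 ⟨neg_ne_zero.2 (mem_core.1 hz).1, h1⟩
  have hsubset : ∀ B : Finset (OnePoint K), OnePoint.infty ∈ B → ((0 : K) : OnePoint K) ∈ B →
      (∀ z ∈ core B, -z ∈ core B) → ∀ x ∈ core B, ∀ y ∈ core B, sixA x y ⊆ B := by
    intro B hi h0 hneg x hx y hy w hw
    simp only [sixA, Finset.mem_insert, Finset.mem_singleton] at hw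
    rcases hw with rfl | rfl | rfl | rfl | rfl | rfl
    · exact hi
    · exact h0
    · exact (mem_core.1 hx).2
    · exact (mem_core.1 (hneg x hx)).2
    · exact (mem_core.1 hy).2
    · exact (mem_core.1 (hneg y hy)).2
  have h11 : (1 : K) ≠ -1 := fun e => h2 (by linear_combination e)
  have hWne : ∀ x y : K, x ≠ 0 → y ≠ 0 → y / x ∉ ({1, -1} : Finset K) → x ≠ y ∧ x ≠ -y := by
    intro x y hx hy h
    simp only [Finset.mem_insert, Finset.mem_singleton, not_or] at h
    refine ⟨fun e => h.1 (by rw [e, div_self hy]), fun e => h.2 ?_⟩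
    rw [div_eq_iff hx, e]; ring
  let 𝓓 : Set (Finset K) := {D | ∃ B ∈ 𝓑, OnePoint.infty ∈ B ∧ ((0 : K) : OnePoint K) ∈ B ∧
    (∀ z ∈ core B, -z ∈ core B) ∧ D = core B}
  have hT : Torus ({1, -1} : Finset K) 𝓓 (k - 2) := by
    refine ⟨?_, by simp, ?_, ?_, ?_, ?_, ?_, ?_⟩
    · simp
    · intro x hx y hy
      simp only [Finset.mem_insert, Finset.mem_singleton] at hx hy ⊢
      rcases hx with rfl | rfl <;> rcases hy with rfl | rfl <;> simp
    · rintro D ⟨B, -, -, -, -, rfl⟩
      exact zero_notMem_core B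
    · rintro D ⟨B, hB, hi, h0, -, rfl⟩
      have := card_core hi h0
      rw [hD.1 B hB] at this
      omega
    · rintro D ⟨B, hB, hi, h0, hneg, rfl⟩ w hw x hx
      simp only [Finset.mem_insert, Finset.mem_singleton] at hw
      rcases hw with rfl | rfl
      · rwa [one_mul]
      · rw [neg_one_mul]; exact hneg x hx
    · intro x y hx hy hxy
      obtain ⟨h3, h4⟩ := hWne x y hx hy hxy
      obtain ⟨B, hB, hS⟩ := block_exists hD (sixA_card h2 hx hy h3 h4)
      refine ⟨core B, ⟨B, hB, hS (by simp [sixA]), hS (by simp [sixA]),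
        hinv B hB x y hx hy h3 h4 hS, rfl⟩, ?_, ?_⟩
      · exact mem_core.2 ⟨hx, hS (by simp [sixA])⟩
      · exact mem_core.2 ⟨hy, hS (by simp [sixA])⟩
    · rintro D ⟨B, hB, hi, h0, hneg, rfl⟩ D' ⟨B', hB', hi', h0', hneg', rfl⟩ x y hx hy hx' hy' hxy
      obtain ⟨h3, h4⟩ := hWne x y (mem_core.1 hx).1 (mem_core.1 hy).1 hxy
      have : B = B' := block_unique hD hB hB' (S := sixA x y)
        (by rw [sixA_card h2 (mem_core.1 hx).1 (mem_core.1 hy).1 h3 h4])
        (hsubset B hi h0 hneg x hx y hy) (hsubset B' hi' h0' hneg' x hx' y hy')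
      rw [this]
  have hP := isClass_square ({1, -1} : Finset K) (by
    intro w hw
    simp only [Finset.mem_insert, Finset.mem_singleton] at hw
    rcases hw with rfl | rfl
    · exact IsSquare.one
    · exact ⟨s, hs⟩) hp hns
  have hWc : ({1, -1} : Finset K).card = 2 := Finset.card_pair h11
  have heven : ∀ S : Finset K, (0 : K) ∉ S → (∀ z ∈ S, -z ∈ S) → Even S.card := by
    intro S h0 hneg
    refine even_of_free (Equiv.neg K) (fun x => neg_neg x) S ?_ ?_
    · refine Finset.eq_of_subset_of_card_le ?_ ?_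
      · rw [Finset.image_subset_iff]
        exact hneg
      · rw [Finset.card_image_of_injective _ (Equiv.neg K).injective]
    · intro x hx e
      have hx0 : x ≠ 0 := fun e => h0 (e ▸ hx)
      have e' : -x = x := e
      exact (mul_ne_zero h2 hx0) (by linear_combination -e')
  have hsqneg : ∀ z : K, IsSquare z → IsSquare (-z) := by
    intro z hz
    rw [← neg_one_mul]
    exact IsSquare.mul ⟨s, hs⟩ hz
  obtain ⟨D, ⟨B, hB, hi, h0, -, rfl⟩, hall⟩ := full_three hT hP (by
    rintro D ⟨B, hB, hi, h0, hneg, rfl⟩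
    rw [hWc]
    have e1 : Even (dpos (fun x : K => IsSquare x) (core B)).card := by
      refine heven _ (fun e => zero_notMem_core B (mem_dpos.1 e).1) ?_
      intro z hz
      rw [mem_dpos] at hz ⊢
      exact ⟨hneg z hz.1, hsqneg z hz.2⟩
    have e2 : Even (dneg (fun x : K => IsSquare x) (core B)).card := by
      refine heven _ (fun e => zero_notMem_core B (mem_dneg.1 e).1) ?_
      intro z hz
      rw [mem_dneg] at hz ⊢
      refine ⟨hneg z hz.1, fun e => hz.2 ?_⟩
      have := hsqneg _ e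
      rwa [neg_neg] at this
    have e3 := card_dpos_dneg (P := fun x : K => IsSquare x) (core B)
    have e4 := card_core hi h0
    rw [hD.1 B hB] at e4
    obtain ⟨a, ha⟩ := e1
    obtain ⟨b, hb⟩ := e2
    omega) (by
    rintro D ⟨B, hB, hi, h0, hneg, rfl⟩ x hx y hy hxy hcl z hz
    have hx0 := (mem_core.1 hx).1
    have hy0 := (mem_core.1 hy).1
    obtain ⟨h3, h4⟩ := hWne x y hx0 hy0 hxy
    have hsq : IsSquare (x * y) := by
      by_cases h5 : IsSquare x
      · exact h5.mul (hcl.1 h5)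
      · exact hp _ _ h5 (fun e => h5 (hcl.2 e))
    obtain ⟨t, ht⟩ := hsqneg _ hsq
    have ht0 : t ≠ 0 := by
      rintro rfl
      exact mul_ne_zero hx0 hy0 (by linear_combination -ht)
    have hdet2 : (0 : K) * 0 - x * y * 1 = t ^ 2 := by linear_combination ht
    have hsub := hsubset B hi h0 hneg x hx y hy
    have h1 := image_block hD hSL (mobM 0 (x * y) 1 0 t hdet2 ht0) hB hB (sixA x y)
      (sixA_card h2 hx0 hy0 h3 h4) hsub (by
        intro w hw
        simp only [sixA, Finset.mem_insert, Finset.mem_singleton] at hw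
        refine hsub ?_
        rcases hw with rfl | rfl | rfl | rfl | rfl | rfl
        · rw [mob_infty _ _ _ _ _ _ _ one_ne_zero, zero_div]; simp [sixA]
        · rw [mob_coe' _ _ _ _ _ _ _ _ (by ring)]; simp [sixA]
        · rw [mobM_inv _ _ _ _ _ hx0, show x * y / x = y by field_simp]; simp [sixA]
        · rw [mobM_inv _ _ _ _ _ (neg_ne_zero.2 hx0), show x * y / -x = -y by field_simp]
          simp [sixA]
        · rw [mobM_inv _ _ _ _ _ hy0, show x * y / y = x by field_simp]; simp [sixA]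
        · rw [mobM_inv _ _ _ _ _ (neg_ne_zero.2 hy0), show x * y / -y = -x by field_simp]
          simp [sixA]) z (mem_core.1 hz).2
    rw [mobM_inv _ _ _ _ _ (mem_core.1 hz).1] at h1
    exact mem_core.2 ⟨div_ne_zero (mul_ne_zero hx0 hy0) (mem_core.1 hz).1, h1⟩)
  have h1 : B = Finset.univ := by
    ext x
    refine ⟨fun _ => Finset.mem_univ _, fun _ => ?_⟩
    induction x using OnePoint.rec with
    | infty => exact hi
    | coe x =>
      by_cases hx : x = 0
      · rw [hx]; exact h0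
      · exact (mem_core.1 (hall x hx)).2
  rw [← hD.1 B hB, h1, Finset.card_univ]
  exact Fintype.card_option

end Pool.Agent.N86.S46
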