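import Pool.Agent.N86.S46.SixOne

/-!
# Steiner systems `S(6, k, q + 1)` on the projective line: `q = 1 (mod 3)`
-/

set_option autoImplicit false

namespace Pool.Agent.N86.S46

open Finset Matrix Pool.Agent.N86.S6 Pool.Agent.N86.S4

variable {K : Type*} [Field K] [DecidableEq K] [Fintype K] {k : ℕ}
  {𝓑 : Finset (Finset (OnePoint K))}

/-- two orbits of `x ↦ w x` -/
noncomputable def sixB (w x y : K) : Finset (OnePoint K) :=
  {(x : OnePoint K), ((w * x : K) : OnePoint K), ((w ^ 2 * x : K) : OnePoint K),
    (y : OnePoint K), ((w * y : K) : OnePoint K), ((w ^ 2 * y : K) : OnePoint K)}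

/-- the cube roots of unity -/
def WB (w : K) : Finset K := {1, w, w ^ 2}

section omega
variable {w : K} (hw : w ^ 2 + w + 1 = 0) (hw1 : w ≠ 1)
include hw hw1

lemma sixB_card {x y : K} (hx : x ≠ 0) (hy : y ≠ 0) (hxy : y / x ∉ WB w) :
    (sixB w x y).card = 6 := by
  have hw0 := w_ne w hw hw1
  have h3 := w_cube w hw hw1
  have hws : w ^ 2 ≠ 1 := by
    intro h
    exact hw1 (by linear_combination h3 - w * h)
  have hww : w ^ 2 ≠ w := by
    intro h
    exact hw1 (mul_left_cancel₀ hw0 (by linear_combination h))
  simp only [WB, Finset.mem_insert, Finset.mem_singleton, not_or, div_eq_iff hx] at hxy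
  obtain ⟨ha1, haw, haw2⟩ := hxy
  unfold sixB
  rw [Finset.card_insert_of_notMem, Finset.card_insert_of_notMem, Finset.card_insert_of_notMem,
    Finset.card_insert_of_notMem, Finset.card_insert_of_notMem, Finset.card_singleton]
  · rw [Finset.mem_singleton, OnePoint.coe_eq_coe]
    intro h
    exact hww (mul_right_cancel₀ hy h).symm
  · simp only [Finset.mem_insert, Finset.mem_singleton, OnePoint.coe_eq_coe, not_or]
    refine ⟨fun h => ?_, fun h => ?_⟩
    · exact hw1 (mul_right_cancel₀ hy (by linear_combination -h))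
    · exact hws (mul_right_cancel₀ hy (by linear_combination -h))
  · simp only [Finset.mem_insert, Finset.mem_singleton, OnePoint.coe_eq_coe, not_or]
    refine ⟨fun h => ?_, fun h => ?_, fun h => ?_⟩
    · exact haw2 h.symm
    · exact haw (mul_left_cancel₀ hw0 (by linear_combination -h))
    · exact ha1 (mul_left_cancel₀ (pow_ne_zero 2 hw0) (by linear_combination -h))
  · simp only [Finset.mem_insert, Finset.mem_singleton, OnePoint.coe_eq_coe, not_or]
    refine ⟨fun h => ?_, fun h => ?_, fun h => ?_, fun h => ?_⟩
    · exact hww (mul_right_cancel₀ hx h.symm)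
    · exact haw h.symm
    · exact ha1 (mul_left_cancel₀ hw0 (by linear_combination -h))
    · exact haw2 (mul_left_cancel₀ (pow_ne_zero 2 hw0) (by linear_combination -h - w * x * h3))
  · simp only [Finset.mem_insert, Finset.mem_singleton, OnePoint.coe_eq_coe, not_or]
    refine ⟨fun h => ?_, fun h => ?_, fun h => ?_, fun h => ?_, fun h => ?_⟩
    · exact hw1 (mul_right_cancel₀ hx (by linear_combination -h))
    · exact hws (mul_right_cancel₀ hx (by linear_combination -h))
    · exact ha1 (by linear_combination -h)
    · exact haw2 (mul_left_cancel₀ hw0 (by linear_combination -h - x * h3))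
    · exact haw (mul_left_cancel₀ (pow_ne_zero 2 hw0) (by linear_combination -h - x * h3))

/-- `q = 1 (mod 3)`, `q` even or `q = 3 (mod 4)` -/
theorem six_three (hD : IsDesign 6 k 1 𝓑)
    (hSL : ∀ A : SpecialLinearGroup (Fin 2) K, ∀ B ∈ 𝓑, B.image (slPerm A) ∈ 𝓑)
    (hcase : (∀ x : K, IsSquare x) ∨ ((∀ a b : K, ¬ IsSquare a → ¬ IsSquare b → IsSquare (a * b)) ∧
      ¬ IsSquare (-1 : K)))
    (hk : 9 ≤ k) (hkq : k < Fintype.card K + 1) : Fintype.card K ≤ k + 1 := by
  have hw0 := w_ne w hw hw1
  have h3 := w_cube w hw hw1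
  have hws : w ^ 2 ≠ 1 := by
    intro h
    exact hw1 (by linear_combination h3 - w * h)
  have hww : w ^ 2 ≠ w := by
    intro h
    exact hw1 (mul_left_cancel₀ hw0 (by linear_combination h))
  have hdet : w * 1 - 0 * 0 = (w ^ 2) ^ 2 := by linear_combination -w * h3
  have hwW : w ∈ WB w := by simp [WB]
  -- invariance of blocks through `sixB w x y`
  have hinv : ∀ B ∈ 𝓑, ∀ x y : K, x ≠ 0 → y ≠ 0 → y / x ∉ WB w → sixB w x y ⊆ B →
      ∀ z ∈ core B, w * z ∈ core B := by
    intro B hB x y hx hy hxy hsub z hz
    have h1 := image_block hD hSL (mobM w 0 0 1 (w ^ 2) hdet (pow_ne_zero 2 hw0)) hB hB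
      (sixB w x y) (sixB_card hw hw1 hx hy hxy) hsub (by
        intro u hu
        simp only [sixB, Finset.mem_insert, Finset.mem_singleton] at hu
        refine hsub ?_
        rcases hu with rfl | rfl | rfl | rfl | rfl | rfl
        · rw [mobM_mul]; simp [sixB]
        · rw [mobM_mul, show w * (w * x) = w ^ 2 * x by ring]; simp [sixB]
        · rw [mobM_mul, show w * (w ^ 2 * x) = x by linear_combination x * h3]; simp [sixB]
        · rw [mobM_mul]; simp [sixB]
        · rw [mobM_mul, show w * (w * y) = w ^ 2 * y by ring]; simp [sixB]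
        · rw [mobM_mul, show w * (w ^ 2 * y) = y by linear_combination y * h3]; simp [sixB])
      z (mem_core.1 hz).2
    rw [mobM_mul] at h1
    exact mem_core.2 ⟨mul_ne_zero hw0 (mem_core.1 hz).1, h1⟩
  have hinv2 : ∀ B : Finset (OnePoint K), (∀ z ∈ core B, w * z ∈ core B) → ∀ z ∈ core B,
      w ^ 2 * z ∈ core B := by
    intro B h z hz
    have := h _ (h z hz)
    rwa [← mul_assoc, ← sq] at this
  have hsubset : ∀ B : Finset (OnePoint K), (∀ z ∈ core B, w * z ∈ core B) → ∀ x ∈ core B,
      ∀ y ∈ core B, sixB w x y ⊆ B := by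
    intro B h x hx y hy u hu
    simp only [sixB, Finset.mem_insert, Finset.mem_singleton] at hu
    rcases hu with rfl | rfl | rfl | rfl | rfl | rfl
    · exact (mem_core.1 hx).2
    · exact (mem_core.1 (h x hx)).2
    · exact (mem_core.1 (hinv2 B h x hx)).2
    · exact (mem_core.1 hy).2
    · exact (mem_core.1 (h y hy)).2
    · exact (mem_core.1 (hinv2 B h y hy)).2
  let 𝓓 : Set (Finset K) := {D | ∃ B ∈ 𝓑, (∀ z ∈ core B, w * z ∈ core B) ∧ D = core B}
  have hcard : ∀ B ∈ 𝓑, (∀ z ∈ core B, w * z ∈ core B) → (core B).card = k - k % 3 := by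
    intro B hB h
    -- the fixed points
    have h4 : (core B).card % 3 = 0 := by
      have h5 := card_mod_three (Equiv.mulLeft₀ w hw0) (fun x => by
        show w * (w * (w * x)) = x
        linear_combination x * h3) (core B) (by
        refine Finset.eq_of_subset_of_card_le ?_ ?_
        · rw [Finset.image_subset_iff]
          exact h
        · rw [Finset.card_image_of_injective _ (Equiv.mulLeft₀ w hw0).injective])
      have h6 : (core B).filter (fun x => (Equiv.mulLeft₀ w hw0) x = x) = ∅ := by
        rw [Finset.filter_eq_empty_iff]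
        intro x hx e
        have e' : w * x = x := e
        exact hw1 (mul_right_cancel₀ (mem_core.1 hx).1 (by rw [e', one_mul]))
      rw [h6, Finset.card_empty] at h5
      omega
    have h7 : (core B).card ≤ B.card ∧ B.card ≤ (core B).card + 2 := by
      have e1 : ((core B).map ⟨fun x : K => (x : OnePoint K), OnePoint.coe_injective⟩) ⊆ B := by
        intro x hx
        simp only [Finset.mem_map, Function.Embedding.coeFn_mk] at hx
        obtain ⟨y, hy, rfl⟩ := hx
        exact (mem_core.1 hy).2
      have e2 : B ⊆ insert OnePoint.infty (insert ((0 : K) : OnePoint K)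
          ((core B).map ⟨fun x : K => (x : OnePoint K), OnePoint.coe_injective⟩)) := by
        intro x hx
        simp only [Finset.mem_insert, Finset.mem_map, Function.Embedding.coeFn_mk]
        induction x using OnePoint.rec with
        | infty => left; rfl
        | coe x =>
          by_cases hx0 : x = 0
          · right; left; rw [hx0]
          · right; right
            exact ⟨x, mem_core.2 ⟨hx0, hx⟩, rfl⟩
      have e3 := Finset.card_le_card e1
      have e4 := Finset.card_le_card e2
      rw [Finset.card_map] at e3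
      refine ⟨e3, e4.trans ?_⟩
      refine (Finset.card_insert_le _ _).trans ?_
      have := Finset.card_insert_le ((0 : K) : OnePoint K)
        ((core B).map ⟨fun x : K => (x : OnePoint K), OnePoint.coe_injective⟩)
      rw [Finset.card_map] at this
      omega
    rw [hD.1 B hB] at h7
    omega
  have hWc : (WB w).card = 3 := by
    unfold WB
    rw [Finset.card_insert_of_notMem, Finset.card_insert_of_notMem, Finset.card_singleton]
    · rw [Finset.mem_singleton]; exact fun e => hww e.symm
    · simp only [Finset.mem_insert, Finset.mem_singleton, not_or]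
      exact ⟨hw1.symm, hws.symm⟩
  have hT : Torus (WB w) 𝓓 (k - k % 3) := by
    refine ⟨?_, by simp [WB], ?_, ?_, ?_, ?_, ?_, ?_⟩
    · simp only [WB, Finset.mem_insert, Finset.mem_singleton, not_or]
      exact ⟨zero_ne_one, hw0.symm, (pow_ne_zero 2 hw0).symm⟩
    · intro x hx y hy
      simp only [WB, Finset.mem_insert, Finset.mem_singleton] at hx hy ⊢
      rcases hx with rfl | rfl | rfl <;> rcases hy with rfl | rfl | rfl
      · left; ring
      · right; left; ring
      · right; right; ring
      · right; left; ring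
      · right; right; ring
      · left; linear_combination h3
      · right; right; ring
      · left; linear_combination h3
      · right; left; linear_combination w * h3
    · rintro D ⟨B, -, -, rfl⟩
      exact zero_notMem_core B
    · rintro D ⟨B, hB, h, rfl⟩
      exact hcard B hB h
    · rintro D ⟨B, hB, h, rfl⟩ u hu x hx
      simp only [WB, Finset.mem_insert, Finset.mem_singleton] at hu
      rcases hu with rfl | rfl | rfl
      · rwa [one_mul]
      · exact h x hx
      · exact hinv2 B h x hx
    · intro x y hx hy hxy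
      obtain ⟨B, hB, hS⟩ := block_exists hD (sixB_card hw hw1 hx hy hxy)
      refine ⟨core B, ⟨B, hB, hinv B hB x y hx hy hxy hS, rfl⟩, ?_, ?_⟩
      · exact mem_core.2 ⟨hx, hS (by simp [sixB])⟩
      · exact mem_core.2 ⟨hy, hS (by simp [sixB])⟩
    · rintro D ⟨B, hB, h, rfl⟩ D' ⟨B', hB', h', rfl⟩ x y hx hy hx' hy' hxy
      have : B = B' := block_unique hD hB hB' (S := sixB w x y)
        (by rw [sixB_card hw hw1 (mem_core.1 hx).1 (mem_core.1 hy).1 hxy])
        (hsubset B h x hx y hy) (hsubset B' h' x hx' y hy')
      rw [this]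
  -- the reflections
  have href : ∀ B ∈ 𝓑, (∀ z ∈ core B, w * z ∈ core B) → ∀ x ∈ core B, ∀ y ∈ core B,
      y / x ∉ WB w → IsSquare (-(x * y)) → ∀ z ∈ core B, x * y / z ∈ core B := by
    intro B hB h x hx y hy hxy hsq z hz
    have hx0 := (mem_core.1 hx).1
    have hy0 := (mem_core.1 hy).1
    obtain ⟨t, ht⟩ := hsq
    have ht0 : t ≠ 0 := by
      rintro rfl
      exact mul_ne_zero hx0 hy0 (by linear_combination -ht)
    have hdet2 : (0 : K) * 0 - x * y * 1 = t ^ 2 := by linear_combination ht
    have hsub := hsubset B h x hx y hy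
    have hw20 := pow_ne_zero 2 hw0
    have h1 := image_block hD hSL (mobM 0 (x * y) 1 0 t hdet2 ht0) hB hB (sixB w x y)
      (sixB_card hw hw1 hx0 hy0 hxy) hsub (by
        intro u hu
        simp only [sixB, Finset.mem_insert, Finset.mem_singleton] at hu
        refine hsub ?_
        rcases hu with rfl | rfl | rfl | rfl | rfl | rfl
        · rw [mobM_inv _ _ _ _ _ hx0, show x * y / x = y by field_simp]; simp [sixB]
        · rw [mobM_inv _ _ _ _ _ (mul_ne_zero hw0 hx0), show x * y / (w * x) = w ^ 2 * y by
            rw [div_eq_iff (mul_ne_zero hw0 hx0)]; linear_combination -x * y * h3]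
          simp [sixB]
        · rw [mobM_inv _ _ _ _ _ (mul_ne_zero hw20 hx0), show x * y / (w ^ 2 * x) = w * y by
            rw [div_eq_iff (mul_ne_zero hw20 hx0)]; linear_combination -x * y * h3]
          simp [sixB]
        · rw [mobM_inv _ _ _ _ _ hy0, show x * y / y = x by field_simp]; simp [sixB]
        · rw [mobM_inv _ _ _ _ _ (mul_ne_zero hw0 hy0), show x * y / (w * y) = w ^ 2 * x by
            rw [div_eq_iff (mul_ne_zero hw0 hy0)]; linear_combination -x * y * h3]
          simp [sixB]
        · rw [mobM_inv _ _ _ _ _ (mul_ne_zero hw20 hy0), show x * y / (w ^ 2 * y) = w * x by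
            rw [div_eq_iff (mul_ne_zero hw20 hy0)]; linear_combination -x * y * h3]
          simp [sixB]) z (mem_core.1 hz).2
    rw [mobM_inv _ _ _ _ _ (mem_core.1 hz).1] at h1
    exact mem_core.2 ⟨div_ne_zero (mul_ne_zero hx0 hy0) (mem_core.1 hz).1, h1⟩
  have hfull : ∃ D ∈ 𝓓, ∀ x : K, x ≠ 0 → x ∈ D := by
    rcases hcase with hsq | ⟨hp, hm1⟩
    · refine full_one hT ?_ (by omega) ?_
      · obtain ⟨a, -, ha⟩ : ∃ a ∈ (univ : Finset K), a ∉ insert 0 (WB w) := by
          refine Finset.exists_mem_notMem_of_card_lt_card ?_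
          rw [Finset.card_univ]
          have := Finset.card_insert_le 0 (WB w)
          omega
        rw [Finset.mem_insert, not_or] at ha
        exact ⟨a, ha⟩
      · rintro D ⟨B, hB, h, rfl⟩ x hx y hy hxy
        exact href B hB h x hx y hy hxy (hsq _)
    · have hns : ∃ a : K, ¬ IsSquare a := ⟨-1, hm1⟩
      have hwsq : IsSquare w := ⟨w ^ 2, by linear_combination -w * h3⟩
      have hP := isClass_square (WB w) (by
        intro u hu
        simp only [WB, Finset.mem_insert, Finset.mem_singleton] at hu
        rcases hu with rfl | rfl | rfl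
        · exact IsSquare.one
        · exact hwsq
        · exact ⟨w, by ring⟩) hp hns
      refine full_two hT hP (by omega) ?_
      rintro D ⟨B, hB, h, rfl⟩ x hx y hy hPx hPy
      have hx0 := (mem_core.1 hx).1
      refine href B hB h x hx y hy ?_ ?_
      · intro e
        have e1 := hP.W _ e
        have e2 := hP.mul _ _ hx0 (div_ne_zero (mem_core.1 hy).1 hx0) hPx e1
        rw [mul_div_cancel₀ _ hx0] at e2
        exact hPy e2
      · rw [show -(x * y) = x * (-1 * y) by ring]
        exact IsSquare.mul hPx (hp _ _ hm1 hPy)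
  obtain ⟨D, ⟨B, hB, -, rfl⟩, hall⟩ := hfull
  have e1 : (univ : Finset K).erase 0 ⊆ core B := by
    intro x hx
    exact hall x (Finset.ne_of_mem_erase hx)
  have e2 := Finset.card_le_card e1
  rw [Finset.card_erase_of_mem (Finset.mem_univ _), Finset.card_univ] at e2
  have e3 : (core B).card ≤ B.card := by
    have e1 : ((core B).map ⟨fun x : K => (x : OnePoint K), OnePoint.coe_injective⟩) ⊆ B := by
      intro x hx
      simp only [Finset.mem_map, Function.Embedding.coeFn_mk] at hx
      obtain ⟨y, hy, rfl⟩ := hx
      exact (mem_core.1 hy).2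
    have e3 := Finset.card_le_card e1
    rwa [Finset.card_map] at e3
  rw [hD.1 B hB] at e3
  omega

end omega

end Pool.Agent.N86.S46
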