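import Pool.Agent.N86.S46.Quad

/-!
# Steiner systems `S(6, k, q + 1)` on the projective line: `q = 2 (mod 3)`
-/

set_option autoImplicit false

namespace Pool.Agent.N86.S46

open Finset Matrix Pool.Agent.N86.S6 Pool.Agent.N86.S4

variable {K L : Type*} [Field K] [DecidableEq K] [Fintype K] [Field L] [Fintype L] [DecidableEq L]
  (Q : Quad K L) {k : ℕ} {𝓑 : Finset (Finset (OnePoint K))}

namespace Quad

/-- the group generated by `K` and `ω` -/
noncomputable def WQ : Finset L :=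
  ((univ.erase (0 : K)) ×ˢ (Finset.range 3)).image (fun p => Q.i p.1 * Q.ω ^ p.2)

lemma mem_WQ {u : L} : u ∈ Q.WQ ↔ ∃ c : K, c ≠ 0 ∧ ∃ j < 3, u = Q.i c * Q.ω ^ j := by
  unfold WQ
  rw [Finset.mem_image]
  constructor
  · rintro ⟨⟨c, j⟩, h, rfl⟩
    rw [Finset.mem_product] at h
    exact ⟨c, (Finset.mem_erase.1 h.1).1, j, Finset.mem_range.1 h.2, rfl⟩
  · rintro ⟨c, hc, j, hj, rfl⟩
    exact ⟨(c, j), Finset.mem_product.2 ⟨Finset.mem_erase.2 ⟨hc, Finset.mem_univ _⟩,
      Finset.mem_range.2 hj⟩, rfl⟩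

lemma mem_WQ' {c : K} (hc : c ≠ 0) (j : ℕ) : Q.i c * Q.ω ^ j ∈ Q.WQ := by
  rw [Q.mem_WQ]
  refine ⟨c, hc, j % 3, Nat.mod_lt _ (by norm_num), ?_⟩
  congr 1
  conv_lhs => rw [← Nat.div_add_mod j 3, pow_add, pow_mul, Q.om_cube, one_pow, one_mul]

lemma card_WQ : (Q.WQ).card ≤ 3 * (Fintype.card K - 1) := by
  unfold WQ
  refine Finset.card_image_le.trans ?_
  rw [Finset.card_product, Finset.card_erase_of_mem (Finset.mem_univ _), Finset.card_univ,
    Finset.card_range, mul_comm]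

/-- the six points -/
noncomputable def six (x y : L) : Finset (OnePoint K) :=
  (Finset.range 3).image (fun j => Q.phi (Q.ω ^ j * x)) ∪
    (Finset.range 3).image (fun j => Q.phi (Q.ω ^ j * y))

omit [Fintype K] [Fintype L] [DecidableEq L] in
lemma om_pow_inj {c : K} {i j : ℕ} (hi : i < 3) (hj : j < 3) (h : Q.ω ^ i = Q.i c * Q.ω ^ j) :
    i = j := by
  have key : ∀ (c : K) (m : ℕ), m < 3 → Q.ω ^ m = Q.i c → m = 0 := by
    intro c m hm h
    interval_cases m
    · rfl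
    · exfalso
      have := Q.ind (-c) 1 (by rw [map_neg, map_one]; linear_combination h)
      exact one_ne_zero this.2
    · exfalso
      have := Q.ind (-1 - c) (-1) (by
        rw [map_sub, map_neg, map_one]; linear_combination h - Q.hω)
      exact (neg_ne_zero.2 one_ne_zero) this.2
  have h3 := Q.om_cube
  have hinv : ∀ j, j < 3 → Q.ω ^ j * Q.ω ^ (3 - j) = 1 := by
    intro j hj
    rw [← pow_add, show j + (3 - j) = 3 by omega, h3]
  -- multiply by the inverse of `ω ^ j`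
  have h4 : Q.ω ^ (i + (3 - j)) = Q.i c := by
    rw [pow_add, h]
    linear_combination Q.i c * hinv j hj
  rcases Nat.lt_or_ge (i + (3 - j)) 3 with h5 | h5
  · have := key c _ h5 h4
    omega
  · have h6 : Q.ω ^ (i + (3 - j) - 3) = Q.i c := by
      rw [← h4]
      conv_rhs => rw [show i + (3 - j) = 3 + (i + (3 - j) - 3) by omega, pow_add, h3, one_mul]
    have := key c _ (by omega) h6
    omega

lemma six_card {x y : L} (hx : x ≠ 0) (hy : y ≠ 0) (hxy : y / x ∉ Q.WQ) :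
    (Q.six x y).card = 6 := by
  have hω := Q.om_ne
  have hinj : ∀ x : L, x ≠ 0 → Set.InjOn (fun j => Q.phi (Q.ω ^ j * x)) (Finset.range 3) := by
    intro x hx i hi j hj h
    rw [Finset.coe_range, Set.mem_Iio] at hi hj
    obtain ⟨c, hc, h1⟩ := Q.phi_eq (mul_ne_zero (pow_ne_zero j hω) hx)
      (mul_ne_zero (pow_ne_zero i hω) hx) h.symm
    refine Q.om_pow_inj (c := c) hi hj (mul_right_cancel₀ hx ?_)
    rw [h1, mul_assoc]
  unfold six
  rw [Finset.card_union_of_disjoint, Finset.card_image_of_injOn (hinj x hx),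
    Finset.card_image_of_injOn (hinj y hy), Finset.card_range]
  rw [Finset.disjoint_left]
  intro p hp hp'
  rw [Finset.mem_image] at hp hp'
  obtain ⟨i, hi, rfl⟩ := hp
  obtain ⟨j, hj, h⟩ := hp'
  rw [Finset.mem_range] at hi hj
  obtain ⟨c, hc, h1⟩ := Q.phi_eq (mul_ne_zero (pow_ne_zero j hω) hy)
      (mul_ne_zero (pow_ne_zero i hω) hx) h
  refine hxy ?_
  have h2 : y / x = Q.i c⁻¹ * Q.ω ^ (i + (3 - j)) := by
    have h3 : Q.ω ^ j * Q.ω ^ (3 - j) = 1 := by
      rw [← pow_add, show j + (3 - j) = 3 by omega, Q.om_cube]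
    have hc' : Q.i c ≠ 0 := (map_ne_zero Q.i).2 hc
    rw [div_eq_iff hx, map_inv₀, pow_add]
    rw [mul_assoc, mul_assoc, eq_inv_mul_iff_mul_eq₀ hc']
    linear_combination -(Q.ω ^ (3 - j)) * h1 - (Q.i c * y) * h3
  rw [h2]
  exact Q.mem_WQ' (inv_ne_zero hc) _

/-- the conclusion for `q = 2 (mod 3)` -/
theorem six_two (hD : IsDesign 6 k 1 𝓑)
    (hSL : ∀ A : SpecialLinearGroup (Fin 2) K, ∀ B ∈ 𝓑, B.image (slPerm A) ∈ 𝓑)
    (hcase : (∀ x : K, IsSquare x) ∨ ((∀ a b : K, ¬ IsSquare a → ¬ IsSquare b → IsSquare (a * b)) ∧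
      ¬ IsSquare (-1 : K) ∧ ∃ u : L, u ≠ 0 ∧ ¬ IsSquare (Q.norm u)))
    (hk : 6 < k) (hq : 2 < Fintype.card K) : k = Fintype.card K + 1 := by
  have hω := Q.om_ne
  have hdet : (0 : K) * (-1) - (-1) * 1 = 1 ^ 2 := by ring
  have hsix : ∀ B : Finset (OnePoint K), (∀ u : L, u ∈ Q.cone B → Q.ω * u ∈ Q.cone B) →
      ∀ x ∈ Q.cone B, ∀ y ∈ Q.cone B, Q.six x y ⊆ B := by
    intro B h x hx y hy p hp
    have hpow : ∀ (x : L), x ∈ Q.cone B → ∀ j : ℕ, Q.ω ^ j * x ∈ Q.cone B := by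
      intro x hx j
      induction j with
      | zero => rwa [pow_zero, one_mul]
      | succ j ih =>
        rw [pow_succ', mul_assoc]
        exact h _ ih
    unfold six at hp
    rw [Finset.mem_union, Finset.mem_image, Finset.mem_image] at hp
    rcases hp with ⟨j, -, rfl⟩ | ⟨j, -, rfl⟩
    · exact (Q.mem_cone.1 (hpow x hx j)).2
    · exact (Q.mem_cone.1 (hpow y hy j)).2
  have hmem : ∀ (x y : L) (j : ℕ), Q.phi (Q.ω ^ j * x) ∈ Q.six x y ∧
      Q.phi (Q.ω ^ j * y) ∈ Q.six x y := by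
    intro x y j
    have e : ∀ x : L, Q.ω ^ j * x = Q.ω ^ (j % 3) * x := by
      intro x
      conv_lhs => rw [← Nat.div_add_mod j 3, pow_add, pow_mul, Q.om_cube, one_pow, one_mul]
    unfold six
    rw [e x, e y]
    exact ⟨Finset.mem_union_left _ (Finset.mem_image_of_mem _ (Finset.mem_range.2
      (Nat.mod_lt _ (by norm_num)))), Finset.mem_union_right _ (Finset.mem_image_of_mem _
      (Finset.mem_range.2 (Nat.mod_lt _ (by norm_num))))⟩
  have hinv : ∀ B ∈ 𝓑, ∀ x y : L, x ≠ 0 → y ≠ 0 → y / x ∉ Q.WQ → Q.six x y ⊆ B →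
      ∀ u ∈ Q.cone B, Q.ω * u ∈ Q.cone B := by
    intro B hB x y hx hy hxy hsub u hu
    rw [Q.mem_cone] at hu ⊢
    refine ⟨mul_ne_zero hω hu.1, ?_⟩
    have h1 := image_block hD hSL (mobM 0 (-1) 1 (-1) 1 hdet one_ne_zero) hB hB
      (Q.six x y) (Q.six_card hx hy hxy) hsub (by
        intro p hp
        refine hsub ?_
        unfold six at hp
        rw [Finset.mem_union, Finset.mem_image, Finset.mem_image] at hp
        rcases hp with ⟨j, -, rfl⟩ | ⟨j, -, rfl⟩
        · rw [Q.phi_om (mul_ne_zero (pow_ne_zero j hω) hx), ← mul_assoc, ← pow_succ']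
          exact (hmem x y _).1
        · rw [Q.phi_om (mul_ne_zero (pow_ne_zero j hω) hy), ← mul_assoc, ← pow_succ']
          exact (hmem x y _).2) _ hu.2
    rwa [Q.phi_om hu.1] at h1
  let 𝓓 : Set (Finset L) := {D | ∃ B ∈ 𝓑, (∀ u ∈ Q.cone B, Q.ω * u ∈ Q.cone B) ∧ D = Q.cone B}
  have hW0 : ∀ w ∈ Q.WQ, w ≠ 0 := by
    intro w hw
    rw [Q.mem_WQ] at hw
    obtain ⟨c, hc, j, -, rfl⟩ := hw
    exact mul_ne_zero ((map_ne_zero Q.i).2 hc) (pow_ne_zero j hω)
  have hT : Torus Q.WQ 𝓓 ((Fintype.card K - 1) * k) := by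
    refine ⟨fun h => hW0 _ h rfl, ?_, ?_, ?_, ?_, ?_, ?_, ?_⟩
    · rw [Q.mem_WQ]
      exact ⟨1, one_ne_zero, 0, by norm_num, by simp⟩
    · intro x hx y hy
      rw [Q.mem_WQ] at hx hy
      obtain ⟨c, hc, j, -, rfl⟩ := hx
      obtain ⟨c', hc', j', -, rfl⟩ := hy
      have : Q.i c * Q.ω ^ j * (Q.i c' * Q.ω ^ j') = Q.i (c * c') * Q.ω ^ (j + j') := by
        rw [map_mul, pow_add]; ring
      rw [this]
      exact Q.mem_WQ' (mul_ne_zero hc hc') _
    · rintro D ⟨B, -, -, rfl⟩ h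
      exact (Q.mem_cone.1 h).1 rfl
    · rintro D ⟨B, hB, -, rfl⟩
      rw [Q.card_cone, hD.1 B hB]
    · rintro D ⟨B, hB, h, rfl⟩ w hw x hx
      rw [Q.mem_WQ] at hw
      obtain ⟨c, hc, j, -, rfl⟩ := hw
      have h1 : Q.ω ^ j * x ∈ Q.cone B := by
        clear * - h hx
        induction j with
        | zero => rwa [pow_zero, one_mul]
        | succ j ih =>
          rw [pow_succ', mul_assoc]
          exact h _ ih
      rw [Q.mem_cone] at h1 ⊢
      rw [mul_assoc, Q.phi_smul hc]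
      exact ⟨mul_ne_zero ((map_ne_zero Q.i).2 hc) h1.1, h1.2⟩
    · intro x y hx hy hxy
      obtain ⟨B, hB, hS⟩ := block_exists hD (Q.six_card hx hy hxy)
      have h1 := hmem x y 0
      rw [pow_zero, one_mul, one_mul] at h1
      exact ⟨Q.cone B, ⟨B, hB, hinv B hB x y hx hy hxy hS, rfl⟩,
        Q.mem_cone.2 ⟨hx, hS h1.1⟩, Q.mem_cone.2 ⟨hy, hS h1.2⟩⟩
    · rintro D ⟨B, hB, h, rfl⟩ D' ⟨B', hB', h', rfl⟩ x y hx hy hx' hy' hxy
      have : B = B' := block_unique hD hB hB' (S := Q.six x y)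
        (by rw [Q.six_card (Q.mem_cone.1 hx).1 (Q.mem_cone.1 hy).1 hxy])
        (hsix B h x hx y hy) (hsix B' h' x hx' y hy')
      rw [this]
  have href : ∀ B ∈ 𝓑, (∀ u ∈ Q.cone B, Q.ω * u ∈ Q.cone B) → ∀ x ∈ Q.cone B, ∀ y ∈ Q.cone B,
      y / x ∉ Q.WQ → IsSquare (-(Q.norm (x * y))) → ∀ z ∈ Q.cone B, x * y / z ∈ Q.cone B := by
    intro B hB h x hx y hy hxy hsq z hz
    have hx0 := (Q.mem_cone.1 hx).1
    have hy0 := (Q.mem_cone.1 hy).1
    have hc : x * y ≠ 0 := mul_ne_zero hx0 hy0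
    obtain ⟨t, ht⟩ := hsq
    have ht0 : t ≠ 0 := by
      rintro rfl
      exact Q.norm_ne hc (by linear_combination -ht)
    have hdet2 : Q.re (x * y) * (-Q.re (x * y)) - (Q.im (x * y) - Q.re (x * y)) * Q.im (x * y) =
        t ^ 2 := by
      unfold norm at ht
      linear_combination ht
    have hsub := hsix B h x hx y hy
    have h3 : ∀ j < 3, ∀ u v : L, u ≠ 0 → u * v / (Q.ω ^ j * u) = Q.ω ^ (3 - j) * v := by
      intro j hj u v hu
      rw [div_eq_iff (mul_ne_zero (pow_ne_zero j hω) hu)]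
      have : Q.ω ^ j * Q.ω ^ (3 - j) = 1 := by
        rw [← pow_add, show j + (3 - j) = 3 by omega, Q.om_cube]
      linear_combination -(u * v) * this
    have h1 := image_block hD hSL (mobM (Q.re (x * y)) (Q.im (x * y) - Q.re (x * y))
      (Q.im (x * y)) (-Q.re (x * y)) t hdet2 ht0) hB hB (Q.six x y) (Q.six_card hx0 hy0 hxy) hsub (by
        intro p hp
        refine hsub ?_
        unfold six at hp
        rw [Finset.mem_union, Finset.mem_image, Finset.mem_image] at hp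
        rcases hp with ⟨j, hj, rfl⟩ | ⟨j, hj, rfl⟩
        · rw [Q.phi_refl hc (mul_ne_zero (pow_ne_zero j hω) hx0) t ht0 hdet2,
            h3 j (Finset.mem_range.1 hj) x y hx0]
          exact (hmem x y _).2
        · rw [Q.phi_refl hc (mul_ne_zero (pow_ne_zero j hω) hy0) t ht0 hdet2, mul_comm x y,
            h3 j (Finset.mem_range.1 hj) y x hy0]
          exact (hmem x y _).1) _ (Q.mem_cone.1 hz).2
    rw [Q.phi_refl hc (Q.mem_cone.1 hz).1 t ht0 hdet2] at h1
    exact Q.mem_cone.2 ⟨div_ne_zero hc (Q.mem_cone.1 hz).1, h1⟩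
  have hWk : 2 * (Q.WQ).card < (Fintype.card K - 1) * k := by
    have h1 := Q.card_WQ
    have h2 : (Fintype.card K - 1) * 6 < (Fintype.card K - 1) * k :=
      Nat.mul_lt_mul_of_pos_left hk (by omega)
    omega
  have hfull : ∃ D ∈ 𝓓, ∀ x : L, x ≠ 0 → x ∈ D := by
    rcases hcase with hsq | ⟨hp, hm1, hns⟩
    · refine full_one hT ?_ hWk ?_
      · obtain ⟨a, -, ha⟩ : ∃ a ∈ (univ : Finset L), a ∉ insert 0 Q.WQ := by
          refine Finset.exists_mem_notMem_of_card_lt_card ?_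
          rw [Finset.card_univ, Q.card_L]
          have h1 := Finset.card_insert_le 0 Q.WQ
          have h2 := Q.card_WQ
          have h3 : 3 * (Fintype.card K - 1) + 1 < Fintype.card K ^ 2 := by
            obtain ⟨m, hm⟩ : ∃ m, Fintype.card K = m + 3 := ⟨Fintype.card K - 3, by omega⟩
            rw [hm, show m + 3 - 1 = m + 2 by omega]
            nlinarith
          omega
        rw [Finset.mem_insert, not_or] at ha
        exact ⟨a, ha⟩
      · rintro D ⟨B, hB, h, rfl⟩ x hx y hy hxy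
        exact href B hB h x hx y hy hxy (hsq _)
    · have hP : IsClass Q.WQ (fun u : L => IsSquare (Q.norm u)) := by
        refine ⟨?_, ?_, ?_, ?_, ?_, hns⟩
        · show IsSquare (Q.norm 1)
          rw [Q.norm_one]; exact IsSquare.one
        · intro x y _ _ hx hy
          show IsSquare (Q.norm (x * y))
          rw [Q.norm_mul]; exact IsSquare.mul hx hy
        · intro x y _ _ hx hy
          show IsSquare (Q.norm (x * y))
          rw [Q.norm_mul]; exact hp _ _ hx hy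
        · intro x y hx0 _ hx hy
          show ¬ IsSquare (Q.norm (x * y))
          rw [Q.norm_mul]; exact not_square_mul hx (Q.norm_ne hx0) hy
        · intro w hw
          rw [Q.mem_WQ] at hw
          obtain ⟨c, hc, j, -, rfl⟩ := hw
          show IsSquare (Q.norm (Q.i c * Q.ω ^ j))
          rw [Q.norm_mul, Q.norm_i]
          have : Q.norm (Q.ω ^ j) = 1 := by
            clear * -
            induction j with
            | zero => rw [pow_zero, Q.norm_one]
            | succ j ih => rw [pow_succ, Q.norm_mul, ih, Q.norm_om, one_mul]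
          rw [this, mul_one]
          exact ⟨c, by ring⟩
      refine full_two hT hP hWk ?_
      rintro D ⟨B, hB, h, rfl⟩ x hx y hy hPx hPy
      have hx0 := (Q.mem_cone.1 hx).1
      refine href B hB h x hx y hy ?_ ?_
      · intro e
        have e1 := hP.W _ e
        have e2 := hP.mul _ _ hx0 (div_ne_zero (Q.mem_cone.1 hy).1 hx0) hPx e1
        rw [mul_div_cancel₀ _ hx0] at e2
        exact hPy e2
      · rw [Q.norm_mul, show -(Q.norm x * Q.norm y) = Q.norm x * (-1 * Q.norm y) by ring]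
        exact IsSquare.mul hPx (hp _ _ hm1 hPy)
  obtain ⟨D, ⟨B, hB, -, rfl⟩, hall⟩ := hfull
  have h1 : B = Finset.univ := by
    ext p
    refine ⟨fun _ => Finset.mem_univ _, fun _ => ?_⟩
    have := (Q.mem_cone.1 (hall _ (Q.rep_ne p))).2
    rwa [Q.phi_rep] at this
  rw [← hD.1 B hB, h1, Finset.card_univ]
  exact Fintype.card_option

end Quad

end Pool.Agent.N86.S46
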