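import Pool.Agent.N86.S4.Base

/-!
# Steiner systems `S(2, κ, n)` on a cyclic group with reflections
-/

set_option autoImplicit false

namespace Pool.Agent.N86.S46

open Finset Pool.Agent.N86.S4

variable {F : Type*} [Field F] [DecidableEq F]

/-- a collection of unions of cosets of the finite group `W` of nonzero elements of the field `F`
such that any two nonzero elements in different cosets are in exactly one member -/
structure Torus (W : Finset F) (𝓓 : Set (Finset F)) (κ : ℕ) : Prop where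
  W0 : (0 : F) ∉ W
  W1 : (1 : F) ∈ W
  Wm : ∀ x ∈ W, ∀ y ∈ W, x * y ∈ W
  D0 : ∀ D ∈ 𝓓, (0 : F) ∉ D
  Dc : ∀ D ∈ 𝓓, D.card = κ
  DW : ∀ D ∈ 𝓓, ∀ w ∈ W, ∀ x ∈ D, w * x ∈ D
  ex : ∀ x y : F, x ≠ 0 → y ≠ 0 → y / x ∉ W → ∃ D ∈ 𝓓, x ∈ D ∧ y ∈ D
  un : ∀ D ∈ 𝓓, ∀ D' ∈ 𝓓, ∀ x y : F, x ∈ D → y ∈ D → x ∈ D' → y ∈ D' → y / x ∉ W → D = D'

variable {W : Finset F} {𝓓 : Set (Finset F)} {κ : ℕ}

omit [DecidableEq F] in
lemma Torus.inv (h : Torus W 𝓓 κ) {x : F} (hx : x ∈ W) : x⁻¹ ∈ W := by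
  refine mem_of_pow W h.W0 ⟨1, h.W1⟩ h.Wm ?_
  rw [inv_pow, pow_card_eq_one W h.W0 h.Wm x hx, inv_one]

/-- two reflections make a rotation -/
lemma closure_W (W : Finset F) (hinv : ∀ x ∈ W, x⁻¹ ∈ W) (S T : Finset F) (hS0 : (0 : F) ∉ S)
    (hT0 : (0 : F) ∉ T) (hTW : ∀ w ∈ W, ∀ x ∈ T, w * x ∈ T) (hc : 2 * W.card < S.card)
    (h : ∀ x ∈ S, ∀ y ∈ S, y / x ∉ W → ∀ z ∈ T, x * y / z ∈ T) :
    ∀ x ∈ S, ∀ y ∈ S, ∀ z ∈ T, x / y * z ∈ T := by
  intro x hx y hy z hz
  have hx0 : x ≠ 0 := fun e => hS0 (e ▸ hx)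
  have hy0 : y ≠ 0 := fun e => hS0 (e ▸ hy)
  have hz0 : z ≠ 0 := fun e => hT0 (e ▸ hz)
  by_cases hxy : y / x ∈ W
  · have h1 := hTW _ (hinv _ hxy) z hz
    rwa [inv_div] at h1
  obtain ⟨n, hn, hn2⟩ : ∃ n ∈ S, n ∉ W.image (fun w => w * x) ∪ W.image (fun w => w * y) := by
    refine Finset.exists_mem_notMem_of_card_lt_card (lt_of_le_of_lt ?_ hc)
    refine (Finset.card_union_le _ _).trans ?_
    have h1 := Finset.card_image_le (s := W) (f := fun w => w * x)
    have h2 := Finset.card_image_le (s := W) (f := fun w => w * y)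
    omega
  have hn0 : n ≠ 0 := fun e => hS0 (e ▸ hn)
  simp only [Finset.mem_union, Finset.mem_image, not_or, not_exists, not_and] at hn2
  have hnx : n / x ∉ W := fun e => hn2.1 _ e (by field_simp)
  have hny : n / y ∉ W := fun e => hn2.2 _ e (by field_simp)
  have h1 := h y hy n hn hny z hz
  have h2 := h x hx n hn hnx _ h1
  have h3 : x * n / (y * n / z) = x / y * z := by field_simp
  rwa [h3] at h2

/-- all reflections -/
theorem full_one (h : Torus W 𝓓 κ) (ha : ∃ a : F, a ≠ 0 ∧ a ∉ W) (hκ : 2 * W.card < κ)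
    (href : ∀ D ∈ 𝓓, ∀ x ∈ D, ∀ y ∈ D, y / x ∉ W → ∀ z ∈ D, x * y / z ∈ D) :
    ∃ D ∈ 𝓓, ∀ x : F, x ≠ 0 → x ∈ D := by
  have hmul : ∀ D ∈ 𝓓, (1 : F) ∈ D → ∀ x ∈ D, ∀ y ∈ D, x * y ∈ D := by
    intro D hD h1 x hx y hy
    have := closure_W W (fun x hx => h.inv hx) D D (h.D0 D hD) (h.D0 D hD) (h.DW D hD)
      (by rw [h.Dc D hD]; exact hκ) (href D hD) x hx 1 h1 y hy
    rwa [div_one] at this
  obtain ⟨a, ha0, ha⟩ := ha
  obtain ⟨D, hD, h1, -⟩ := h.ex 1 a one_ne_zero ha0 (by rwa [div_one])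
  refine ⟨D, hD, fun y hy => ?_⟩
  by_cases hyW : y ∈ W
  · have := h.DW D hD y hyW 1 h1
    rwa [mul_one] at this
  obtain ⟨D', hD', h1', hy'⟩ := h.ex 1 y one_ne_zero hy (by rwa [div_one])
  refine subset_of_dvd _ _ (h.D0 D' hD') (h.D0 D hD) ⟨1, h1⟩ (hmul D' hD' h1')
    (hmul D hD h1) ?_ hy'
  rw [h.Dc D hD, h.Dc D' hD']

section classes
variable (P : F → Prop)

/-- a class function -/
structure IsClass (W : Finset F) (P : F → Prop) : Prop where
  one : P 1
  mul : ∀ x y, x ≠ 0 → y ≠ 0 → P x → P y → P (x * y)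
  mul' : ∀ x y, x ≠ 0 → y ≠ 0 → ¬ P x → ¬ P y → P (x * y)
  mul'' : ∀ x y, x ≠ 0 → y ≠ 0 → P x → ¬ P y → ¬ P (x * y)
  W : ∀ w ∈ W, P w
  ex : ∃ a, a ≠ 0 ∧ ¬ P a

variable {P}

omit [DecidableEq F] in
lemma IsClass.inv (hP : IsClass W P) {x : F} (hx0 : x ≠ 0) : P x⁻¹ ↔ P x := by
  constructor
  · intro h
    by_contra hx
    have := hP.mul'' _ _ (inv_ne_zero hx0) hx0 h hx
    rw [inv_mul_cancel₀ hx0] at this
    exact this hP.one
  · intro h
    by_contra hx
    have := hP.mul'' _ _ hx0 (inv_ne_zero hx0) h hx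
    rw [mul_inv_cancel₀ hx0] at this
    exact this hP.one

/-- the members of the first class -/
noncomputable def dpos (P : F → Prop) (D : Finset F) : Finset F := by
  classical exact D.filter (fun x => P x)

/-- the members of the second class -/
noncomputable def dneg (P : F → Prop) (D : Finset F) : Finset F := by
  classical exact D.filter (fun x => ¬ P x)

omit [DecidableEq F] in
lemma mem_dpos {D : Finset F} {x : F} : x ∈ dpos P D ↔ x ∈ D ∧ P x := by
  classical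
  unfold dpos; rw [Finset.mem_filter]

omit [DecidableEq F] in
lemma mem_dneg {D : Finset F} {x : F} : x ∈ dneg P D ↔ x ∈ D ∧ ¬ P x := by
  classical
  unfold dneg; rw [Finset.mem_filter]

omit [DecidableEq F] in
lemma card_dpos_dneg (D : Finset F) : (dpos P D).card + (dneg P D).card = D.card := by
  classical
  unfold dpos dneg
  exact Finset.card_filter_add_card_filter_not (s := D) (fun x => P x)

/-- reflections exchanging the classes -/
theorem full_two (h : Torus W 𝓓 κ) (hP : IsClass W P) (hκ : 2 * W.card < κ)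
    (href : ∀ D ∈ 𝓓, ∀ x ∈ D, ∀ y ∈ D, P x → ¬ P y → ∀ z ∈ D, x * y / z ∈ D) :
    ∃ D ∈ 𝓓, ∀ x : F, x ≠ 0 → x ∈ D := by
  have hne0 : ∀ D ∈ 𝓓, ∀ x ∈ D, x ≠ 0 := fun D hD x hx e => h.D0 D hD (e ▸ hx)
  have hmul : ∀ D ∈ 𝓓, (1 : F) ∈ D → (dneg P D).Nonempty → ∀ x ∈ dpos P D, ∀ y ∈ D,
      x * y ∈ D := by
    intro D hD h1 ⟨u, hu⟩ x hx y hy
    rw [mem_dneg] at hu
    rw [mem_dpos] at hx
    have hu0 := hne0 D hD u hu.1
    have hx0 := hne0 D hD x hx.1
    have hy0 := hne0 D hD y hy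
    have h2 := href D hD 1 h1 u hu.1 hP.one hu.2 y hy
    have h3 := href D hD x hx.1 u hu.1 hx.2 hu.2 _ h2
    have h4 : x * u / (1 * u / y) = x * y := by field_simp
    rwa [h4] at h3
  have hmulp : ∀ D ∈ 𝓓, (1 : F) ∈ D → (dneg P D).Nonempty → ∀ x ∈ dpos P D, ∀ y ∈ dpos P D,
      x * y ∈ dpos P D := fun D hD h1 hne x hx y hy =>
    mem_dpos.2 ⟨hmul D hD h1 hne x hx y (mem_dpos.1 hy).1,
      hP.mul _ _ (hne0 D hD x (mem_dpos.1 hx).1) (hne0 D hD y (mem_dpos.1 hy).1)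
        (mem_dpos.1 hx).2 (mem_dpos.1 hy).2⟩
  have hcard : ∀ D ∈ 𝓓, (1 : F) ∈ D → (dneg P D).Nonempty → 2 * (dpos P D).card = κ := by
    intro D hD h1 ⟨u, hu⟩
    have hu' := mem_dneg.1 hu
    have hu0 := hne0 D hD u hu'.1
    have hinj : Function.Injective (fun z : F => 1 * u / z) := by
      intro a b hab
      simp only [one_mul] at hab
      rw [div_eq_mul_inv, div_eq_mul_inv] at hab
      exact inv_injective (mul_left_cancel₀ hu0 hab)
    have e1 : (dpos P D).card ≤ (dneg P D).card := by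
      rw [← Finset.card_image_of_injective (dpos P D) hinj]
      refine Finset.card_le_card ?_
      rw [Finset.image_subset_iff]
      intro z hz
      have hz' := mem_dpos.1 hz
      have hz0 := hne0 D hD z hz'.1
      rw [mem_dneg]
      refine ⟨href D hD 1 h1 u hu'.1 hP.one hu'.2 z hz'.1, ?_⟩
      have h3 := hP.mul'' z⁻¹ u (inv_ne_zero hz0) hu0 ((hP.inv hz0).2 hz'.2) hu'.2
      have h4 : 1 * u / z = z⁻¹ * u := by field_simp
      rwa [h4]
    have e2 : (dneg P D).card ≤ (dpos P D).card := by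
      rw [← Finset.card_image_of_injective (dneg P D) hinj]
      refine Finset.card_le_card ?_
      rw [Finset.image_subset_iff]
      intro z hz
      have hz' := mem_dneg.1 hz
      have hz0 := hne0 D hD z hz'.1
      rw [mem_dpos]
      refine ⟨href D hD 1 h1 u hu'.1 hP.one hu'.2 z hz'.1, ?_⟩
      have h3 := hP.mul' z⁻¹ u (inv_ne_zero hz0) hu0 (fun e => hz'.2 ((hP.inv hz0).1 e)) hu'.2
      have h4 : 1 * u / z = z⁻¹ * u := by field_simp
      rwa [h4]
    have e3 := card_dpos_dneg (P := P) D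
    have e4 := h.Dc D hD
    omega
  obtain ⟨a, ha0, ha⟩ := hP.ex
  have hnW : ∀ y, ¬ P y → y / 1 ∉ W := fun y hy e => hy (by rw [div_one] at e; exact hP.W y e)
  obtain ⟨D, hD, h1, haD⟩ := h.ex 1 a one_ne_zero ha0 (hnW a ha)
  have hne : (dneg P D).Nonempty := ⟨a, mem_dneg.2 ⟨haD, ha⟩⟩
  have hc := hcard D hD h1 hne
  obtain ⟨μ, hμ, hμW⟩ : ∃ μ ∈ dpos P D, μ ∉ W :=
    Finset.exists_mem_notMem_of_card_lt_card (by omega)
  have hneg : ∀ y : F, y ≠ 0 → ¬ P y → y ∈ D := by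
    intro y hy0 hy
    obtain ⟨D', hD', h1', hy'⟩ := h.ex 1 y one_ne_zero hy0 (hnW y hy)
    have hne' : (dneg P D').Nonempty := ⟨y, mem_dneg.2 ⟨hy', hy⟩⟩
    have hc' := hcard D' hD' h1' hne'
    have hsub : dpos P D ⊆ dpos P D' := by
      refine subset_of_dvd _ _ (fun e => h.D0 D hD (mem_dpos.1 e).1)
        (fun e => h.D0 D' hD' (mem_dpos.1 e).1)
        ⟨1, mem_dpos.2 ⟨h1', hP.one⟩⟩ (hmulp D hD h1 hne) (hmulp D' hD' h1' hne') ?_
      have : (dpos P D).card = (dpos P D').card := by omega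
      rw [this]
    have : D' = D := h.un D' hD' D hD 1 μ h1' (mem_dpos.1 (hsub hμ)).1 h1 (mem_dpos.1 hμ).1
      (by rwa [div_one])
    rw [← this]
    exact hy'
  refine ⟨D, hD, fun y hy => ?_⟩
  by_cases hys : P y
  · have h2 : ¬ P (a / y) := by
      rw [div_eq_mul_inv, mul_comm]
      exact hP.mul'' _ _ (inv_ne_zero hy) ha0 ((hP.inv hy).2 hys) ha
    have h4 := href D hD 1 h1 a haD hP.one ha _ (hneg _ (div_ne_zero ha0 hy) h2)
    have h5 : 1 * a / (a / y) = y := by field_simp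
    rwa [h5] at h4
  · exact hneg y hy hys

/-- reflections preserving the classes -/
theorem full_three (h : Torus W 𝓓 κ) (hP : IsClass W P)
    (hbig : ∀ D ∈ 𝓓, 2 * W.card < (dpos P D).card ∨ 2 * W.card < (dneg P D).card)
    (href : ∀ D ∈ 𝓓, ∀ x ∈ D, ∀ y ∈ D, y / x ∉ W → (P x ↔ P y) → ∀ z ∈ D, x * y / z ∈ D) :
    ∃ D ∈ 𝓓, ∀ x : F, x ≠ 0 → x ∈ D := by
  have hne0 : ∀ D ∈ 𝓓, ∀ x ∈ D, x ≠ 0 := fun D hD x hx e => h.D0 D hD (e ▸ hx)
  have hinvW : ∀ x ∈ W, x⁻¹ ∈ W := fun x hx => h.inv hx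
  have hstr : ∀ D ∈ 𝓓, (1 : F) ∈ D → (∀ x ∈ dpos P D, ∀ y ∈ dpos P D, x * y ∈ dpos P D) ∧
      2 * W.card < (dpos P D).card ∧
      ((dneg P D = ∅ ∧ (dpos P D).card = κ) ∨ 2 * (dpos P D).card = κ) := by
    intro D hD h1
    have hp1 : (1 : F) ∈ dpos P D := mem_dpos.2 ⟨h1, hP.one⟩
    have htp : ∀ x ∈ dpos P D, ∀ y ∈ dpos P D, y / x ∉ W → ∀ z ∈ D, x * y / z ∈ D := by
      intro x hx y hy hxy z hz
      rw [mem_dpos] at hx hy
      exact href D hD x hx.1 y hy.1 hxy (iff_of_true hx.2 hy.2) z hz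
    have htn : ∀ x ∈ dneg P D, ∀ y ∈ dneg P D, y / x ∉ W → ∀ z ∈ D, x * y / z ∈ D := by
      intro x hx y hy hxy z hz
      rw [mem_dneg] at hx hy
      exact href D hD x hx.1 y hy.1 hxy (iff_of_false hx.2 hy.2) z hz
    have hneg : 2 * W.card < (dneg P D).card → (dneg P D).card ≤ (dpos P D).card := by
      intro h3
      obtain ⟨u, hu⟩ := Finset.card_pos.1 (show 0 < (dneg P D).card by omega)
      have hu' := mem_dneg.1 hu
      have hu0 := hne0 D hD u hu'.1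
      have h4 := closure_W W hinvW (dneg P D) D (fun e => h.D0 D hD (mem_dneg.1 e).1) (h.D0 D hD)
        (h.DW D hD) h3 htn
      have hinj : Function.Injective (fun z : F => z / u) := by
        intro a b hab
        simp only at hab
        rw [div_eq_mul_inv, div_eq_mul_inv] at hab
        exact mul_right_cancel₀ (inv_ne_zero hu0) hab
      rw [← Finset.card_image_of_injective (dneg P D) hinj]
      refine Finset.card_le_card ?_
      rw [Finset.image_subset_iff]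
      intro z hz
      have h5 := h4 z hz u hu 1 h1
      rw [mul_one] at h5
      refine mem_dpos.2 ⟨h5, ?_⟩
      have hz' := mem_dneg.1 hz
      have hz0 := hne0 D hD z hz'.1
      show P (z / u)
      rw [div_eq_mul_inv]
      exact hP.mul' _ _ hz0 (inv_ne_zero hu0) hz'.2 (fun e => hu'.2 ((hP.inv hu0).1 e))
    have h3 : 2 * W.card < (dpos P D).card := by
      rcases hbig D hD with hc | hc
      · exact hc
      · exact hc.trans_le (hneg hc)
    have h4 := closure_W W hinvW (dpos P D) D (fun e => h.D0 D hD (mem_dpos.1 e).1) (h.D0 D hD)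
        (h.DW D hD) h3 htp
    have hmul : ∀ x ∈ dpos P D, ∀ z ∈ D, x * z ∈ D := by
      intro x hx z hz
      have := h4 x hx 1 hp1 z hz
      rwa [div_one] at this
    refine ⟨fun x hx y hy => mem_dpos.2 ⟨hmul x hx y (mem_dpos.1 hy).1,
      hP.mul _ _ (hne0 D hD x (mem_dpos.1 hx).1) (hne0 D hD y (mem_dpos.1 hy).1)
        (mem_dpos.1 hx).2 (mem_dpos.1 hy).2⟩, h3, ?_⟩
    have e1 := card_dpos_dneg (P := P) D
    have e2 := h.Dc D hD
    by_cases hne : dneg P D = ∅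
    · left
      rw [hne, Finset.card_empty] at e1
      exact ⟨hne, by omega⟩
    · right
      obtain ⟨u, hu⟩ := Finset.nonempty_iff_ne_empty.2 hne
      have hu' := mem_dneg.1 hu
      have hu0 := hne0 D hD u hu'.1
      have hinj : Function.Injective (fun z : F => z * u) := mul_left_injective₀ hu0
      have h5 : (dpos P D).card ≤ (dneg P D).card := by
        rw [← Finset.card_image_of_injective (dpos P D) hinj]
        refine Finset.card_le_card ?_
        rw [Finset.image_subset_iff]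
        intro z hz
        refine mem_dneg.2 ⟨hmul z hz u hu'.1, ?_⟩
        exact hP.mul'' _ _ (hne0 D hD z (mem_dpos.1 hz).1) hu0 (mem_dpos.1 hz).2 hu'.2
      have h6 := hneg (h3.trans_le h5)
      omega
  obtain ⟨a, ha0, ha⟩ := hP.ex
  obtain ⟨D, hD, h1, haD⟩ := h.ex 1 a one_ne_zero ha0 (fun e => ha (by
    rw [div_one] at e; exact hP.W a e))
  have hs := hstr D hD h1
  have hc : 2 * (dpos P D).card = κ := by
    rcases hs.2.2 with h2 | h2
    · exfalso
      have : a ∈ dneg P D := mem_dneg.2 ⟨haD, ha⟩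
      rw [h2.1] at this
      exact Finset.notMem_empty _ this
    · exact h2
  obtain ⟨μ, hμ, hμW⟩ : ∃ μ ∈ dpos P D, μ ∉ W :=
    Finset.exists_mem_notMem_of_card_lt_card (by omega)
  refine ⟨D, hD, fun y hy => ?_⟩
  by_cases hyW : y ∈ W
  · have := h.DW D hD y hyW 1 h1
    rwa [mul_one] at this
  obtain ⟨D', hD', h1', hy'⟩ := h.ex 1 y one_ne_zero hy (by rwa [div_one])
  have hs' := hstr D' hD' h1'
  have hsub : dpos P D ⊆ dpos P D' := by
    refine subset_of_dvd _ _ (fun e => h.D0 D hD (mem_dpos.1 e).1)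
      (fun e => h.D0 D' hD' (mem_dpos.1 e).1)
      ⟨1, mem_dpos.2 ⟨h1', hP.one⟩⟩ hs.1 hs'.1 ?_
    rcases hs'.2.2 with h2 | h2
    · exact ⟨2, by omega⟩
    · exact ⟨1, by omega⟩
  have : D' = D := h.un D' hD' D hD 1 μ h1' (mem_dpos.1 (hsub hμ)).1 h1 (mem_dpos.1 hμ).1
    (by rwa [div_one])
  rw [← this]
  exact hy'

end classes

end Pool.Agent.N86.S46
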